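import Pool.Agent.Lib.H26b.Small

open Filter Topology Set Metric Asymptotics
open scoped Real

namespace Pool.Agent.H26b

noncomputable section

/-- Two entire functions with vanishing Wronskian are proportional. -/
lemma wronskian_zero {u v : ℂ → ℂ} (hu : Differentiable ℂ u) (hv : Differentiable ℂ v)
    (hu0 : u ≠ 0) (h : u * deriv v - deriv u * v = 0) : ∃ κ : ℂ, v = fun z => κ * u z := by
  obtain ⟨z₀, hz₀⟩ : ∃ z, u z ≠ 0 := by
    by_contra hne
    push Not at hne
    exact hu0 (funext hne)
  refine ⟨v z₀ / u z₀, ?_⟩
  set κ := v z₀ / u z₀ with hκ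
  set w : ℂ → ℂ := fun z => v z - κ * u z with hw
  have hwd : Differentiable ℂ w := hv.sub (hu.const_mul κ)
  have hwz : w z₀ = 0 := by rw [hw, hκ]; field_simp; ring
  have hwr : ∀ z, u z * deriv w z - deriv u z * w z = 0 := by
    intro z
    have h1 : deriv w z = deriv v z - κ * deriv u z := by
      have e := ((hv z).hasDerivAt.sub ((hu z).hasDerivAt.const_mul κ))
      exact e.deriv
    have h2 := congrFun h z
    simp only [Pi.sub_apply, Pi.mul_apply, Pi.zero_apply] at h2
    rw [h1]
    simp only [hw]
    linear_combination h2
  -- near `z₀` the quotient `w / u` is constant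
  have hopen : ∀ᶠ z in 𝓝 z₀, u z ≠ 0 := (hu.continuous.continuousAt).eventually_ne hz₀
  obtain ⟨ρ, hρ, hball⟩ := Metric.eventually_nhds_iff_ball.mp hopen
  have hconst : ∀ z ∈ ball z₀ ρ, w z = 0 := by
    intro z hz
    have hd : DifferentiableOn ℂ (fun z => w z / u z) (ball z₀ ρ) := fun x hx =>
      ((hwd x).div (hu x) (hball x hx)).differentiableWithinAt
    have hder : ∀ x ∈ ball z₀ ρ, derivWithin (fun z => w z / u z) (ball z₀ ρ) x = 0 := by
      intro x hx
      rw [derivWithin_of_isOpen isOpen_ball hx]
      have e := ((hwd x).hasDerivAt.div (hu x).hasDerivAt (hball x hx)).deriv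
      have e' : deriv (fun z => w z / u z) x = (deriv w x * u x - w x * deriv u x) / u x ^ 2 := e
      rw [e']
      have := hwr x
      rw [div_eq_zero_iff]
      left
      linear_combination this
    have := (convex_ball z₀ ρ).is_const_of_fderivWithin_eq_zero (𝕜 := ℂ) hd (fun x hx => by
      ext
      have h5 : (fderivWithin ℂ (fun z => w z / u z) (ball z₀ ρ) x) 1 = 0 := hder x hx
      rw [h5]
      rfl) hz (mem_ball_self hρ)
    change w z / u z = w z₀ / u z₀ at this
    rw [hwz, zero_div, div_eq_zero_iff] at this
    exact this.resolve_right (hball z hz)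
  have hwa : AnalyticOnNhd ℂ w univ := fun z _ => hwd.analyticAt z
  have h0 : EqOn w 0 univ := by
    apply hwa.eqOn_zero_of_preconnected_of_eventuallyEq_zero isPreconnected_univ (mem_univ z₀)
    filter_upwards [ball_mem_nhds z₀ hρ] with z hz
    exact hconst z hz
  funext z
  have := h0 (mem_univ z)
  simp only [hw, Pi.zero_apply, sub_eq_zero] at this
  exact this

variable {M : ℝ → ℝ} {F : Filter ℝ}

/-- Borel's theorem: exponentials with non-small ratios are linearly independent over the ring
of small functions. -/
theorem borel (hF : F ≤ atTop) (hM : Tendsto M F atTop) {ι : Type*} (J : Finset ι)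
    (a g : ι → ℂ → ℂ) (ha : ∀ i ∈ J, Small M F (a i)) (hg : ∀ i ∈ J, Differentiable ℂ (g i))
    (hg' : ∀ i ∈ J, Small M F (deriv (g i)))
    (hne : ∀ i ∈ J, ∀ j ∈ J, i ≠ j → ¬ Small M F (ex (g i - g j)))
    (h : ∑ i ∈ J, a i * ex (g i) = 0) : ∀ i ∈ J, a i = 0 := by
  classical
  induction J using Finset.induction_on generalizing a with
  | empty => simp
  | insert i₀ J hi₀ ih =>
    have hmem : ∀ i ∈ J, i ∈ insert i₀ J := fun i hi => Finset.mem_insert_of_mem hi
    have hmem₀ : i₀ ∈ insert i₀ J := Finset.mem_insert_self _ _
    have ih' := fun a' ha' h' => ih a' ha' (fun i hi => hg i (hmem i hi))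
      (fun i hi => hg' i (hmem i hi))
      (fun i hi j hj hij => hne i (hmem i hi) j (hmem j hj) hij) h'
    rw [Finset.sum_insert hi₀] at h
    have ha₀ := ha i₀ hmem₀
    have hg₀ := hg i₀ hmem₀
    have hg₀' := hg' i₀ hmem₀
    by_cases h0 : a i₀ = 0
    · rw [h0, zero_mul, zero_add] at h
      intro i hi
      rcases Finset.mem_insert.mp hi with rfl | hi
      · exact h0
      · exact ih' a (fun i hi => ha i (hmem i hi)) h i hi
    · -- the eliminated relation
      exfalso
      set at' : ι → ℂ → ℂ := fun i => a i₀ * (deriv (a i) + a i * deriv (g i)) -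
        a i * (deriv (a i₀) + a i₀ * deriv (g i₀)) with hat
      have hR := smallRing M F hM
      have hsm : ∀ i ∈ J, Small M F (at' i) := by
        intro i hi
        have h1 := ha i (hmem i hi)
        have h2 := hg' i (hmem i hi)
        exact (smallRing M F hM).sub_mem
          ((smallRing M F hM).mul_mem ha₀ ((smallRing M F hM).add_mem h1.der
            ((smallRing M F hM).mul_mem h1 h2)))
          ((smallRing M F hM).mul_mem h1 ((smallRing M F hM).add_mem ha₀.der
            ((smallRing M F hM).mul_mem ha₀ hg₀')))
      have hderiv : ∀ i ∈ insert i₀ J, ∀ z, HasDerivAt (a i * ex (g i))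
          (((deriv (a i) + a i * deriv (g i)) * ex (g i)) z) z := by
        intro i hi z
        have h1 := ((ha i hi).1 z).hasDerivAt
        have h2 := (ex_diff (hg i hi) z).hasDerivAt
        have h3 := h1.mul h2
        rw [deriv_ex (hg i hi)] at h3
        have e : ((deriv (a i) + a i * deriv (g i)) * ex (g i)) z =
            deriv (a i) z * ex (g i) z + a i z * (deriv (g i) * ex (g i)) z := by
          simp only [Pi.mul_apply, Pi.add_apply]
          ring
        rw [e]
        exact h3
      have hsum : ∀ z, (∑ i ∈ insert i₀ J, (deriv (a i) + a i * deriv (g i)) * ex (g i)) z = 0 := by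
        intro z
        have h1 : HasDerivAt (∑ i ∈ insert i₀ J, a i * ex (g i))
            (∑ i ∈ insert i₀ J, ((deriv (a i) + a i * deriv (g i)) * ex (g i)) z) z :=
          HasDerivAt.sum fun i hi => hderiv i hi z
        have h2 : (∑ i ∈ insert i₀ J, a i * ex (g i)) = fun _ => (0 : ℂ) := by
          rw [Finset.sum_insert hi₀, h]; rfl
        rw [h2] at h1
        rw [Finset.sum_apply]
        exact h1.unique (hasDerivAt_const z 0)
      have hrel : ∑ i ∈ J, at' i * ex (g i) = 0 := by
        have e1 : ∑ i ∈ J, at' i * ex (g i) =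
            a i₀ * (∑ i ∈ insert i₀ J, (deriv (a i) + a i * deriv (g i)) * ex (g i)) -
            (deriv (a i₀) + a i₀ * deriv (g i₀)) * (a i₀ * ex (g i₀) + ∑ i ∈ J, a i * ex (g i)) := by
          rw [Finset.sum_insert hi₀, mul_add, mul_add, Finset.mul_sum, Finset.mul_sum]
          have e2 : ∀ i ∈ J, at' i * ex (g i) =
              a i₀ * ((deriv (a i) + a i * deriv (g i)) * ex (g i)) -
              (deriv (a i₀) + a i₀ * deriv (g i₀)) * (a i * ex (g i)) := by
            intro i _
            simp only [hat]
            ring
          rw [Finset.sum_congr rfl e2, Finset.sum_sub_distrib]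
          ring
        have e3 : (∑ i ∈ insert i₀ J, (deriv (a i) + a i * deriv (g i)) * ex (g i)) = 0 :=
          funext hsum
        rw [e1, e3, h, mul_zero, mul_zero, sub_zero]
      have hzero := ih' at' hsm hrel
      -- all the other coefficients vanish
      have hall : ∀ i ∈ J, a i = 0 := by
        intro i hi
        by_contra hai
        have h1 := ha i (hmem i hi)
        have h2 := hg i (hmem i hi)
        have hu : Differentiable ℂ (a i₀ * ex (g i₀)) := ha₀.1.mul (ex_diff hg₀)
        have hv : Differentiable ℂ (a i * ex (g i)) := h1.1.mul (ex_diff h2)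
        have hu0 : a i₀ * ex (g i₀) ≠ 0 := by
          intro h3
          apply h0
          funext z
          have := congrFun h3 z
          simp only [Pi.mul_apply, Pi.zero_apply, mul_eq_zero] at this
          exact this.resolve_right (ex_ne _ _)
        have hdu : deriv (a i₀ * ex (g i₀)) = (deriv (a i₀) + a i₀ * deriv (g i₀)) * ex (g i₀) :=
          funext fun z => (hderiv i₀ hmem₀ z).deriv
        have hdv : deriv (a i * ex (g i)) = (deriv (a i) + a i * deriv (g i)) * ex (g i) :=
          funext fun z => (hderiv i (hmem i hi) z).deriv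
        obtain ⟨κ, hκ⟩ := wronskian_zero hu hv hu0 (by
          rw [hdu, hdv]
          have e : a i₀ * ex (g i₀) * ((deriv (a i) + a i * deriv (g i)) * ex (g i)) -
              (deriv (a i₀) + a i₀ * deriv (g i₀)) * ex (g i₀) * (a i * ex (g i)) =
              at' i * (ex (g i₀) * ex (g i)) := by
            simp only [hat]; ring
          rw [e, hzero i hi, zero_mul])
        have hne' := hne i (hmem i hi) i₀ hmem₀ (fun h => hi₀ (h ▸ hi))
        apply hne'
        have hdiff : Differentiable ℂ (g i - g i₀) := h2.sub hg₀
        have hder : deriv (g i - g i₀) = deriv (g i) - deriv (g i₀) := by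
          funext z
          exact deriv_sub (h2 z) (hg₀ z)
        apply small_ex_of_mul hF hM hdiff (a := a i) (b := (fun _ => κ) * a i₀)
        · rw [hder]
          exact (smallRing M F hM).sub_mem (hg' i (hmem i hi)) hg₀'
        · exact h1
        · exact hai
        · exact (Small.const hM κ).mul hM ha₀
        · funext z
          have h5 := congrFun hκ z
          simp only [Pi.mul_apply] at h5 ⊢
          have h6 : ex (g i - g i₀) z = ex (g i) z / ex (g i₀) z := by
            unfold ex
            rw [Pi.sub_apply, Complex.exp_sub]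
          rw [h6, ← mul_div_assoc, h5]
          have := ex_ne (g i₀) z
          field_simp
      have hs : ∑ i ∈ J, a i * ex (g i) = 0 :=
        Finset.sum_eq_zero fun i hi => by rw [hall i hi, zero_mul]
      rw [hs, add_zero] at h
      apply h0
      funext z
      have := congrFun h z
      simp only [Pi.mul_apply, Pi.zero_apply, mul_eq_zero] at this
      exact this.resolve_right (ex_ne _ _)

end

end Pool.Agent.H26b
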