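import Mathlib

open Filter Topology

namespace Pool.Agent.H26b

/-- The forward difference `Δ_c f (z) = f (z + c) - f z`. -/
def shiftDiff (c : ℂ) (f : ℂ → ℂ) : ℂ → ℂ := fun z => f (z + c) - f z

/-- The meromorphic functions `g` and `h` share the finite value `a` counting multiplicities:
`g - a` and `h - a` have the same zeros with the same multiplicities (the order of a zero is the
positive part of the order of the function). -/
def ShareCM (g h : ℂ → ℂ) (a : ℂ) : Prop :=
  ∀ z, max 0 (meromorphicOrderAt (fun w => g w - a) z) =
    max 0 (meromorphicOrderAt (fun w => h w - a) z)

/-- The meromorphic functions `g` and `h` share `∞` counting multiplicities: they have the same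
poles with the same multiplicities (minus the order of a pole is the negative part of the order of
the function). -/
def ShareInftyCM (g h : ℂ → ℂ) : Prop :=
  ∀ z, min 0 (meromorphicOrderAt g z) = min 0 (meromorphicOrderAt h z)

/-- The hyper-order `ρ₁(f) = limsup (log log T(r, f)) / log r`, where `T(r, f)` is the Nevanlinna
characteristic of `f`. -/
noncomputable def hyperOrder (f : ℂ → ℂ) : EReal :=
  Filter.limsup (fun r : ℝ =>
    ((Real.log (Real.log (ValueDistribution.characteristic f ⊤ r)) / Real.log r : ℝ) : EReal))
    Filter.atTop

end Pool.Agent.H26b
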