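import Mathlib

open Filter Topology Set Metric
open scoped Real

namespace Pool.Agent.H26b

noncomputable section

/-- The Nevanlinna proximity function `m(r, f)`. -/
abbrev mm (f : ℂ → ℂ) : ℝ → ℝ := ValueDistribution.proximity f ⊤

lemma entire_analytic {f : ℂ → ℂ} (hf : Differentiable ℂ f) (z : ℂ) : AnalyticAt ℂ f z :=
  hf.analyticAt z

lemma entire_mero {f : ℂ → ℂ} (hf : Differentiable ℂ f) : Meromorphic f :=
  fun z => (hf.analyticAt z).meromorphicAt

lemma mm_nonneg (f : ℂ → ℂ) (r : ℝ) : 0 ≤ mm f r := ValueDistribution.proximity_nonneg r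

lemma mm_add_le {f g : ℂ → ℂ} (hf : Differentiable ℂ f) (hg : Differentiable ℂ g) (r : ℝ) :
    mm (f + g) r ≤ mm f r + mm g r + Real.log 2 := by
  have := ValueDistribution.proximity_add_top_le (entire_mero hf) (entire_mero hg) r
  simpa using this

lemma mm_mul_le {f g : ℂ → ℂ} (hf : Differentiable ℂ f) (hg : Differentiable ℂ g) (r : ℝ) :
    mm (f * g) r ≤ mm f r + mm g r := by
  have := ValueDistribution.proximity_mul_top_le (entire_mero hf) (entire_mero hg) r
  simpa using this

lemma mm_const (c : ℂ) (r : ℝ) : mm (fun _ => c) r = Real.posLog ‖c‖ := by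
  simp [mm]

lemma mm_neg (f : ℂ → ℂ) (r : ℝ) : mm (-f) r = mm f r := by
  simp [mm, ValueDistribution.proximity]

lemma mm_pow (f : ℂ → ℂ) (n : ℕ) (r : ℝ) : mm (f ^ n) r = n * mm f r := by
  simp [mm]

lemma mm_le_of_bound {f : ℂ → ℂ} (hf : Differentiable ℂ f) {r : ℝ} (hr : 0 ≤ r) {C : ℝ}
    (h : ∀ z, ‖z‖ ≤ r → ‖f z‖ ≤ C) : mm f r ≤ Real.posLog C := by
  unfold mm
  rw [ValueDistribution.proximity_top]
  have h1 : Real.circleAverage (fun x => Real.posLog ‖f x‖) 0 r ≤
      Real.circleAverage (fun _ => Real.posLog C) 0 r := by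
    apply Real.circleAverage_mono
    · exact (entire_mero hf).meromorphicOn.circleIntegrable_posLog_norm
    · exact circleIntegrable_const _ _ _
    · intro x hx
      apply Real.posLog_le_posLog (norm_nonneg _)
      apply h
      rw [mem_sphere_zero_iff_norm, abs_of_nonneg hr] at hx
      exact hx.le
  rwa [Real.circleAverage_const] at h1

lemma logCounting_top_entire {f : ℂ → ℂ} (hf : Differentiable ℂ f) :
    ValueDistribution.logCounting f ⊤ = 0 := by
  rw [ValueDistribution.logCounting_top]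
  have h : 0 ≤ MeromorphicOn.divisor f univ :=
    MeromorphicOn.AnalyticOnNhd.divisor_nonneg (fun z _ => hf.analyticAt z)
  rw [negPart_eq_zero.mpr h]
  simp

/-- Jensen: the proximity function of `1/f` is at most that of `f`, up to a constant. -/
lemma mm_inv_le {f : ℂ → ℂ} (hf : Differentiable ℂ f) :
    ∃ C, ∀ r, 1 ≤ r → mm f⁻¹ r ≤ mm f r + C := by
  refine ⟨max |Real.log ‖f 0‖| |Real.log ‖meromorphicTrailingCoeffAt f 0‖|, fun r hr => ?_⟩
  have h1 := ValueDistribution.characteristic_sub_characteristic_inv_le (R := r) (entire_mero hf)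
  have h2 : 0 ≤ ValueDistribution.logCounting f⁻¹ ⊤ r := ValueDistribution.logCounting_nonneg hr
  have h3 : ValueDistribution.characteristic f⁻¹ ⊤ r =
      mm f⁻¹ r + ValueDistribution.logCounting f⁻¹ ⊤ r := rfl
  have h4 : ValueDistribution.characteristic f ⊤ r = mm f r := by
    have : ValueDistribution.characteristic f ⊤ r =
      mm f r + ValueDistribution.logCounting f ⊤ r := rfl
    rw [this, logCounting_top_entire hf]
    simp
  have h5 := abs_le.mp h1
  rw [h3, h4] at h5
  linarith [h5.1]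

/-! ### The exponential of an entire function -/

lemma posLog_norm_exp (w : ℂ) : Real.posLog ‖Complex.exp w‖ = max 0 w.re := by
  rw [Complex.norm_exp, Real.posLog, Real.log_exp]

lemma mm_exp (g : ℂ → ℂ) (r : ℝ) :
    mm (fun z => Complex.exp (g z)) r = Real.circleAverage (fun z => max 0 (g z).re) 0 r := by
  unfold mm
  rw [ValueDistribution.proximity_top]
  simp_rw [posLog_norm_exp]

/-- Poisson: upper bound for the real part. -/
lemma re_le_of_entire {g : ℂ → ℂ} (hg : Differentiable ℂ g) {R : ℝ} {w : ℂ} (hw : ‖w‖ < R) :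
    (g w).re ≤ (R + ‖w‖) / (R - ‖w‖) * mm (fun z => Complex.exp (g z)) R := by
  have hR : 0 < R := lt_of_le_of_lt (norm_nonneg _) hw
  have hwR : w ∈ ball (0 : ℂ) R := by simpa using hw
  have h1 := DiffContOnCl.circleAverage_re_herglotzRieszKernel_smul'
    (hg.diffContOnCl (s := ball (0 : ℂ) R)) hwR
  simp only [sub_zero] at h1
  have hcont : Continuous g := hg.continuous
  have hne : ∀ z ∈ sphere (0 : ℂ) |R|, z - w ≠ 0 := by
    intro z hz h0
    rw [sub_eq_zero] at h0
    rw [h0, mem_sphere_zero_iff_norm, abs_of_pos hR] at hz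
    linarith
  have hk : ContinuousOn (fun z : ℂ => ((z + w) / (z - w)).re) (sphere (0 : ℂ) |R|) := by
    apply Complex.continuous_re.comp_continuousOn
    apply ContinuousOn.div (by fun_prop) (by fun_prop)
    intro z hz
    exact hne z hz
  have h2 : (g w).re = Real.circleAverage
      (fun z => ((z + w) / (z - w)).re * (g z).re) 0 R := by
    have h3 := (Complex.reCLM).circleAverage_comp_comm
      (f := fun z => ((z + w) / (z - w)).re • g z) (c := 0) (R := R)
      ((hk.smul hcont.continuousOn).circleIntegrable')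
    rw [h1] at h3
    rw [Complex.reCLM_apply] at h3
    rw [← h3]
    congr 1
    ext z
    simp
  rw [h2, mm_exp, ← smul_eq_mul, ← Real.circleAverage_fun_smul]
  apply Real.circleAverage_mono
  · apply ContinuousOn.circleIntegrable'
    exact hk.mul (Complex.continuous_re.comp hcont).continuousOn
  · apply ContinuousOn.circleIntegrable'
    fun_prop
  · intro z hz
    have h4 : z ∈ sphere (0 : ℂ) R := by rwa [abs_of_pos hR] at hz
    have h5 := re_herglotzRieszKernel_le h4 hwR
    have h6 := le_re_herglotzRieszKernel h4 hwR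
    simp only [sub_zero] at h5 h6
    have h7 : 0 ≤ ((z + w) / (z - w)).re := by
      refine le_trans ?_ h6
      apply div_nonneg <;> linarith [norm_nonneg w]
    change ((z + w) / (z - w)).re * (g z).re ≤ (R + ‖w‖) / (R - ‖w‖) * max 0 (g z).re
    calc ((z + w) / (z - w)).re * (g z).re ≤ ((z + w) / (z - w)).re * max 0 (g z).re := by
          gcongr
          exact le_max_right _ _
      _ ≤ (R + ‖w‖) / (R - ‖w‖) * max 0 (g z).re := by
          gcongr

/-- Bound for the derivatives of an entire function by the characteristic of its exponential. -/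
lemma deriv_bound {g : ℂ → ℂ} (hg : Differentiable ℂ g) (k : ℕ) {r R : ℝ} (hr : 0 ≤ r)
    (hrR : r < R) {z : ℂ} (hz : ‖z‖ ≤ r) :
    ‖iteratedDeriv k g z‖ ≤ k.factorial *
      (6 * R * (6 * R * (mm (fun z => Complex.exp (g z)) R + 1) / (R - r) + ‖g 0‖) / (R - r)) /
        ((R - r) / 3) ^ k := by
  set T := mm (fun z => Complex.exp (g z)) R with hT
  have hT0 : 0 ≤ T := mm_nonneg _ _
  set δ := R - r with hδ
  have hδ0 : 0 < δ := by rw [hδ]; linarith
  have hR : 0 < R := by linarith
  have hδR : δ ≤ R := by rw [hδ]; linarith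
  set M₁ := 6 * R * (T + 1) / δ with hM₁
  have hM₁0 : 0 < M₁ := by positivity
  set r₂ := r + 2 * δ / 3 with hr₂
  have hr₂0 : 0 < r₂ := by positivity
  have hmaps : Set.MapsTo g (ball 0 r₂) {z | z.re ≤ M₁} := by
    intro w hw
    have hw' : ‖w‖ < r₂ := by simpa using hw
    have hwR : ‖w‖ < R := by rw [hr₂] at hw'; linarith
    have h1 := re_le_of_entire hg hwR
    have h2 : (R + ‖w‖) / (R - ‖w‖) ≤ 6 * R / δ := by
      rw [div_le_div_iff₀ (by linarith) hδ0]
      have h3 : δ / 3 ≤ R - ‖w‖ := by rw [hr₂] at hw'; linarith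
      nlinarith
    change (g w).re ≤ M₁
    calc (g w).re ≤ (R + ‖w‖) / (R - ‖w‖) * T := h1
      _ ≤ (6 * R / δ) * (T + 1) := by gcongr; linarith
      _ = M₁ := by rw [hM₁]; ring
  have hBC : ∀ w : ℂ, ‖w‖ ≤ r + δ / 3 → ‖g w‖ ≤ 6 * R * (M₁ + ‖g 0‖) / δ := by
    intro w hw
    have hw2 : w ∈ ball (0 : ℂ) r₂ := by
      rw [mem_ball_zero_iff, hr₂]; linarith
    have h1 := Complex.borelCaratheodory hM₁0 hg.differentiableOn hmaps hr₂0 hw2
    have h3 : δ / 3 ≤ r₂ - ‖w‖ := by rw [hr₂]; linarith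
    have h4 : 0 < r₂ - ‖w‖ := by linarith
    have h5 : r₂ ≤ R := by rw [hr₂]; linarith
    have h6 : ‖w‖ ≤ R := by linarith
    calc ‖g w‖ ≤ 2 * M₁ * ‖w‖ / (r₂ - ‖w‖) + ‖g 0‖ * (r₂ + ‖w‖) / (r₂ - ‖w‖) := h1
      _ ≤ 2 * M₁ * R / (δ / 3) + ‖g 0‖ * (R + R) / (δ / 3) := by gcongr
      _ = 6 * R * (M₁ + ‖g 0‖) / δ := by field_simp; ring
  have h := Complex.norm_iteratedDeriv_le_of_forall_mem_sphere_norm_le (c := z) (R := δ / 3)
    (C := 6 * R * (M₁ + ‖g 0‖) / δ) (f := g) k (by positivity) hg.diffContOnCl (by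
      intro w hw
      apply hBC
      rw [mem_sphere_iff_norm] at hw
      calc ‖w‖ = ‖z + (w - z)‖ := by congr 1; ring
        _ ≤ ‖z‖ + ‖w - z‖ := norm_add_le _ _
        _ ≤ r + δ / 3 := by rw [hw]; linarith)
  exact h

end

end Pool.Agent.H26b
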