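import Pool.Agent.Lib.H26b.Twist

open Filter Topology Set
open scoped Real

namespace Pool.Agent.H26b

noncomputable section

/-- Continuous functions that agree off the origin agree at the origin. -/
lemma eq_at_zero {f g : ℂ → ℂ} (hf : Continuous f) (hg : Continuous g)
    (h : ∀ σ : ℂ, σ ≠ 0 → f σ = g σ) : f 0 = g 0 := by
  have := Continuous.ext_on (dense_compl_singleton (0 : ℂ)) hf hg (fun σ hσ => h σ hσ)
  rw [this]

lemma exists_zpow_eq {n : ℤ} (hn : n ≠ 0) {a : ℂ} (ha : a ≠ 0) : ∃ τ : ℂ, τ ≠ 0 ∧ τ ^ n = a := by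
  obtain ⟨k, hk | hk⟩ := Int.eq_nat_or_neg n
  · have hk0 : 0 < k := by omega
    obtain ⟨τ, hτ⟩ := IsAlgClosed.exists_pow_nat_eq a hk0
    refine ⟨τ, ?_, ?_⟩
    · rintro rfl
      rw [zero_pow hk0.ne'] at hτ
      exact ha hτ.symm
    · rw [hk, zpow_natCast, hτ]
  · have hk0 : 0 < k := by omega
    obtain ⟨τ, hτ⟩ := IsAlgClosed.exists_pow_nat_eq a⁻¹ hk0
    refine ⟨τ, ?_, ?_⟩
    · rintro rfl
      rw [zero_pow hk0.ne'] at hτ
      exact inv_ne_zero ha hτ.symm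
    · rw [hk, zpow_neg, zpow_natCast, hτ, inv_inv]

/-- If every solution of `τ^n c = 1` solves `τ^m b = 1` then `n ∣ m` and `b = c^(m/n)`. -/
lemma root_lemma {n m : ℤ} (hn : n ≠ 0) {b c : ℂ} (hc : c ≠ 0)
    (h : ∀ τ : ℂ, τ ≠ 0 → τ ^ n * c = 1 → τ ^ m * b = 1) : n ∣ m ∧ b = c ^ (m / n) := by
  obtain ⟨τ₀, hτ₀, hτn⟩ := exists_zpow_eq hn (inv_ne_zero hc)
  have h1 : τ₀ ^ n * c = 1 := by rw [hτn, inv_mul_cancel₀ hc]
  have h2 := h τ₀ hτ₀ h1
  set ω : ℂ := Complex.exp (2 * π * Complex.I / n) with hω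
  have hn' : (n : ℂ) ≠ 0 := by exact_mod_cast hn
  have hω0 : ω ≠ 0 := Complex.exp_ne_zero _
  have hωn : ω ^ n = 1 := by
    rw [hω, ← Complex.exp_int_mul]
    rw [show (n : ℂ) * (2 * π * Complex.I / n) = 2 * π * Complex.I by field_simp]
    exact Complex.exp_two_pi_mul_I
  have h3 : (τ₀ * ω) ^ n * c = 1 := by rw [mul_zpow, hωn, mul_one, h1]
  have h4 := h (τ₀ * ω) (mul_ne_zero hτ₀ hω0) h3
  have hωm : ω ^ m = 1 := by
    rw [mul_zpow, mul_assoc, mul_comm (ω ^ m) b, ← mul_assoc, h2, one_mul] at h4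
    exact h4
  have hdvd : n ∣ m := by
    rw [hω, ← Complex.exp_int_mul, Complex.exp_eq_one_iff] at hωm
    obtain ⟨j, hj⟩ := hωm
    refine ⟨j, ?_⟩
    have h5 : (m : ℂ) = n * j := by
      have hpi : (2 * (π : ℂ) * Complex.I) ≠ 0 := Complex.two_pi_I_ne_zero
      have h6 : (m : ℂ) * (2 * π * Complex.I) = (n * j) * (2 * π * Complex.I) := by
        field_simp at hj
        linear_combination (2 * (π : ℂ) * Complex.I) * hj
      exact mul_right_cancel₀ hpi h6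
    exact_mod_cast h5
  refine ⟨hdvd, ?_⟩
  obtain ⟨k, rfl⟩ := hdvd
  rw [Int.mul_ediv_cancel_left _ hn]
  have hcn : c = (τ₀ ^ n)⁻¹ := by rw [hτn, inv_inv]
  rw [hcn, inv_zpow, ← zpow_mul]
  exact eq_inv_of_mul_eq_one_right h2

/-- The twisted identity at a point. -/
def TI (b c bs cs p q : ℂ) (m n s t : ℤ) : Prop :=
  ∀ τ : ℂ, τ ≠ 0 → (τ ^ (-s) * bs⁻¹ - 1) * (τ ^ n * c - 1) ^ 2 =
    (τ ^ (-t) * cs⁻¹ - 1) * ((τ ^ n * c - τ ^ (n - m) * (c * b⁻¹)) * (τ ^ n * c - 1) +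
      p * (τ ^ m * b) * (τ ^ n * c - 1) - q * (τ ^ n * c) * (τ ^ m * b - 1))

/-- The double zero argument. -/
lemma claimA {b c bs cs p q : ℂ} {m n s t : ℤ} (hq : q ≠ 0) (hcs : cs ≠ 0) (hcs1 : cs ≠ 1)
    (hT : TI b c bs cs p q m n s t) {τ₀ : ℂ} (hτ₀ : τ₀ ≠ 0) (h : τ₀ ^ n * c = 1) :
    τ₀ ^ m * b = 1 := by
  set X : ℂ → ℂ := fun τ => τ ^ n * c with hX
  set N : ℂ → ℂ := fun τ => (τ ^ n * c - τ ^ (n - m) * (c * b⁻¹)) * (τ ^ n * c - 1) +
      p * (τ ^ m * b) * (τ ^ n * c - 1) - q * (τ ^ n * c) * (τ ^ m * b - 1) with hN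
  set y : ℂ → ℂ := fun τ => τ ^ (-t) * cs⁻¹ - 1 with hy
  set G : ℂ → ℂ := fun τ => τ ^ (-s) * bs⁻¹ - 1 with hG
  have dz : ∀ k : ℤ, HasDerivAt (fun τ : ℂ => τ ^ k) ((k : ℂ) * τ₀ ^ (k - 1)) τ₀ :=
    fun k => hasDerivAt_zpow k τ₀ (Or.inl hτ₀)
  have dX : HasDerivAt X ((n : ℂ) * τ₀ ^ (n - 1) * c) τ₀ := (dz n).mul_const c
  have dG : HasDerivAt G (((-s : ℤ) : ℂ) * τ₀ ^ (-s - 1) * bs⁻¹) τ₀ :=
    ((dz (-s)).mul_const _).sub_const 1
  have dy : HasDerivAt y (((-t : ℤ) : ℂ) * τ₀ ^ (-t - 1) * cs⁻¹) τ₀ :=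
    ((dz (-t)).mul_const _).sub_const 1
  have dN : DifferentiableAt ℂ N τ₀ := by
    have d1 := (dz n).differentiableAt
    have d2 := (dz (n - m)).differentiableAt
    have d3 := (dz m).differentiableAt
    apply DifferentiableAt.sub
    · apply DifferentiableAt.add
      · exact ((d1.mul_const c).sub (d2.mul_const _)).mul ((d1.mul_const c).sub_const 1)
      · exact ((d3.mul_const b).const_mul p).mul ((d1.mul_const c).sub_const 1)
    · exact ((d1.mul_const c).const_mul q).mul ((d3.mul_const b).sub_const 1)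
  have dF1 : HasDerivAt (fun τ => G τ * (X τ - 1) ^ 2) 0 τ₀ := by
    have h1 := dG.mul ((dX.sub_const 1).pow 2)
    have hX0 : X τ₀ - 1 = 0 := by simp only [hX, h, sub_self]
    simp only [hX0] at h1
    convert! h1 using 1
    simp [hX0]
  have dF2 := dy.mul dN.hasDerivAt
  have heq : (fun τ => G τ * (X τ - 1) ^ 2) =ᶠ[𝓝 τ₀] y * N := by
    filter_upwards [isOpen_compl_singleton.mem_nhds hτ₀] with τ hτ
    exact hT τ hτ
  have hder := dF1.unique (dF2.congr_of_eventuallyEq heq)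
  have hval := hT τ₀ hτ₀
  rw [h] at hval
  have hval' : y τ₀ * N τ₀ = 0 := by
    have : (τ₀ ^ (-s) * bs⁻¹ - 1) * ((1 : ℂ) - 1) ^ 2 = 0 := by ring
    rw [this] at hval
    simp only [hy, hN, h]
    exact hval.symm
  have hN0 : N τ₀ = 0 := by
    by_contra hne
    have hy0 : y τ₀ = 0 := (mul_eq_zero.mp hval').resolve_right hne
    rw [hy0, zero_mul, add_zero] at hder
    have h2 := (mul_eq_zero.mp hder.symm).resolve_right hne
    have h3 : ((-t : ℤ) : ℂ) = 0 := by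
      rcases mul_eq_zero.mp h2 with h4 | h4
      · rcases mul_eq_zero.mp h4 with h5 | h5
        · exact h5
        · exact absurd h5 (zpow_ne_zero _ hτ₀)
      · exact absurd h4 (inv_ne_zero hcs)
    have h4 : t = 0 := by
      have : (-t : ℤ) = 0 := by exact_mod_cast h3
      omega
    simp only [hy, h4, neg_zero, zpow_zero, one_mul, sub_eq_zero] at hy0
    exact hcs1 (inv_eq_one.mp hy0)
  simp only [hN, h, sub_self, mul_zero, zero_add, mul_one, add_zero, zero_sub, neg_eq_zero,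
    mul_eq_zero] at hN0
  exact sub_eq_zero.mp (hN0.resolve_left hq)

/-- Three exponents against one. -/
lemma three_terms {a α δ ε A : ℂ} {m s : ℤ} (hm : 0 < m) (hα : α ≠ 0) (hε : ε ≠ 0)
    (h : ∀ τ : ℂ, τ ≠ 0 → α * τ ^ m + δ + ε * τ ^ (-m) = a * τ ^ (-s) - A) : False := by
  obtain ⟨M, rfl⟩ := Int.eq_ofNat_of_zero_le hm.le
  have hM : 0 < M := by exact_mod_cast hm
  rcases lt_or_ge 0 (s + M) with hs | hs
  · obtain ⟨K, hK⟩ := Int.eq_ofNat_of_zero_le hs.le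
    have hK0 : 0 < K := by omega
    have key := eq_at_zero (f := fun σ => α + δ * σ ^ M + ε * σ ^ (2 * M))
      (g := fun σ => a * σ ^ K - A * σ ^ M) (by fun_prop) (by fun_prop) (by
        intro σ hσ
        have h1 := h σ⁻¹ (inv_ne_zero hσ)
        simp only [inv_zpow', neg_neg, zpow_natCast] at h1
        have e1 : σ ^ (-(M : ℤ)) = (σ ^ M)⁻¹ := by rw [zpow_neg, zpow_natCast]
        have e1' : σ⁻¹ ^ M = (σ ^ M)⁻¹ := inv_pow _ _
        have e2 : σ ^ s = σ ^ K * (σ ^ M)⁻¹ := by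
          have : s = K - M := by omega
          rw [this, zpow_sub₀ hσ, zpow_natCast, zpow_natCast]; rfl
        rw [e1', e2] at h1
        have hσM : σ ^ M ≠ 0 := pow_ne_zero _ hσ
        field_simp at h1
        rw [two_mul, pow_add]
        linear_combination h1)
    simp [hK0.ne', hM.ne'] at key
    exact hα key
  · obtain ⟨K, hK⟩ := Int.eq_ofNat_of_zero_le (show (0 : ℤ) ≤ M - s by omega)
    have hK0 : 0 < K := by omega
    have key := eq_at_zero (f := fun σ => α * σ ^ (2 * M) + δ * σ ^ M + ε)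
      (g := fun σ => a * σ ^ K - A * σ ^ M) (by fun_prop) (by fun_prop) (by
        intro σ hσ
        have h1 := h σ hσ
        have e1 : σ ^ (-(M : ℤ)) = (σ ^ M)⁻¹ := by rw [zpow_neg, zpow_natCast]
        have e2 : σ ^ (-s) = σ ^ K * (σ ^ M)⁻¹ := by
          have : -s = K - M := by omega
          rw [this, zpow_sub₀ hσ, zpow_natCast, zpow_natCast]; rfl
        rw [zpow_natCast, e1, e2] at h1
        have hσM : σ ^ M ≠ 0 := pow_ne_zero _ hσ
        field_simp at h1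
        rw [two_mul, pow_add]
        linear_combination h1)
    simp [hK0.ne', hM.ne'] at key
    exact hε key

/-- The case `n = t = 0`. -/
lemma case_zero {b c bs cs p q : ℂ} {m s : ℤ} (hb : b ≠ 0) (hc : c ≠ 0) (hbs : bs ≠ 0)
    (hcs1 : cs ≠ 1) (hc1 : c ≠ 1) (hP : m ≠ 0 → p * (c - 1) - q * c ≠ 0)
    (hms : ¬ (m = 0 ∧ s = 0)) (hT : TI b c bs cs p q m 0 s 0) : False := by
  have hA : (c - 1) ^ 2 ≠ 0 := pow_ne_zero _ (sub_ne_zero.mpr hc1)
  have hE : cs⁻¹ - 1 ≠ 0 := by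
    intro h
    rw [sub_eq_zero] at h
    exact hcs1 (inv_eq_one.mp h)
  have hT' : ∀ τ : ℂ, τ ≠ 0 →
      ((cs⁻¹ - 1) * b * (p * (c - 1) - q * c)) * τ ^ m + (cs⁻¹ - 1) * (c * (c - 1) + q * c) +
        (-(cs⁻¹ - 1) * (c * b⁻¹) * (c - 1)) * τ ^ (-m) =
      ((c - 1) ^ 2 * bs⁻¹) * τ ^ (-s) - (c - 1) ^ 2 := by
    intro τ hτ
    have h1 := hT τ hτ
    simp only [zpow_zero, one_mul, neg_zero, zero_sub] at h1
    linear_combination -h1
  rcases lt_trichotomy m 0 with hm | hm | hm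
  · apply three_terms (m := -m) (s := s) (by omega : 0 < -m)
      (α := -(cs⁻¹ - 1) * (c * b⁻¹) * (c - 1))
      (ε := (cs⁻¹ - 1) * b * (p * (c - 1) - q * c)) (δ := (cs⁻¹ - 1) * (c * (c - 1) + q * c))
      (a := (c - 1) ^ 2 * bs⁻¹) (A := (c - 1) ^ 2)
    · exact mul_ne_zero (mul_ne_zero (neg_ne_zero.mpr hE) (mul_ne_zero hc (inv_ne_zero hb)))
        (sub_ne_zero.mpr hc1)
    · exact mul_ne_zero (mul_ne_zero hE hb) (hP hm.ne)
    · intro τ hτ
      rw [← hT' τ hτ, neg_neg]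
      ring
  · subst hm
    have hs : s ≠ 0 := fun h => hms ⟨rfl, h⟩
    have h1 := hT' 1 one_ne_zero
    have h2 := hT' 2 two_ne_zero
    simp only [neg_zero, zpow_zero, one_zpow, mul_one] at h1 h2
    rw [h1] at h2
    have h3 : (2 : ℂ) ^ (-s) = 1 := by
      have h4 : (c - 1) ^ 2 * bs⁻¹ ≠ 0 := mul_ne_zero hA (inv_ne_zero hbs)
      have h5 : (c - 1) ^ 2 * bs⁻¹ * ((2 : ℂ) ^ (-s) - 1) = 0 := by linear_combination -h2
      exact sub_eq_zero.mp ((mul_eq_zero.mp h5).resolve_left h4)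
    have h4 : (2 : ℝ) ^ (-s) = 1 := by
      have := congrArg norm h3
      rw [norm_zpow] at this
      simpa using this
    have h5 : -s = 0 := by
      have := zpow_right_injective₀ (a := (2 : ℝ)) (by norm_num) (by norm_num)
        (show (2 : ℝ) ^ (-s) = 2 ^ (0 : ℤ) by rw [h4, zpow_zero])
      exact this
    omega
  · apply three_terms (m := m) (s := s) hm
      (ε := -(cs⁻¹ - 1) * (c * b⁻¹) * (c - 1))
      (α := (cs⁻¹ - 1) * b * (p * (c - 1) - q * c)) (δ := (cs⁻¹ - 1) * (c * (c - 1) + q * c))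
      (a := (c - 1) ^ 2 * bs⁻¹) (A := (c - 1) ^ 2)
    · exact mul_ne_zero (mul_ne_zero hE hb) (hP hm.ne')
    · exact mul_ne_zero (mul_ne_zero (neg_ne_zero.mpr hE) (mul_ne_zero hc (inv_ne_zero hb)))
        (sub_ne_zero.mpr hc1)
    · exact hT'

/-- The reduced identity. -/
def TR (c cs q : ℂ) (k n t : ℤ) : Prop :=
  ∀ τ : ℂ, τ ≠ 0 → ((τ ^ (-t) * cs⁻¹) ^ k - 1) * (τ ^ n * c - 1) ^ 2 =
    (τ ^ (-t) * cs⁻¹ - 1) * ((τ ^ n * c - (τ ^ n * c) * ((τ ^ n * c) ^ k)⁻¹) * (τ ^ n * c - 1) +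
      k * q * (τ ^ n * c) ^ k * (τ ^ n * c - 1) - q * (τ ^ n * c) * ((τ ^ n * c) ^ k - 1))

/-- `n = 0`, `t ≠ 0`. -/
lemma case_n_zero {c cs q : ℂ} {k t : ℤ} (hc1 : c ≠ 1) (hcs : cs ≠ 0) (ht : t ≠ 0)
    (hk0 : k ≠ 0) (hk1 : k ≠ 1) (hT : TR c cs q k 0 t) : False := by
  set D : ℂ := (c - c * (c ^ k)⁻¹) * (c - 1) + k * q * c ^ k * (c - 1) - q * c * (c ^ k - 1)
    with hD
  have hall : ∀ y : ℂ, y ≠ 0 → (y ^ k - 1) * (c - 1) ^ 2 = (y - 1) * D := by
    intro y hy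
    obtain ⟨τ, hτ, hτt⟩ := exists_zpow_eq (neg_ne_zero.mpr ht) (mul_ne_zero hy hcs)
    have h1 := hT τ hτ
    rw [hτt, mul_assoc, mul_inv_cancel₀ hcs, mul_one, zpow_zero, one_mul] at h1
    exact h1
  have h2 := hall 2 two_ne_zero
  have h4 := hall 4 (by norm_num)
  have e4 : (4 : ℂ) ^ k = 2 ^ k * 2 ^ k := by
    rw [← mul_zpow]; norm_num
  rw [e4] at h4
  have hA : (c - 1) ^ 2 ≠ 0 := pow_ne_zero _ (sub_ne_zero.mpr hc1)
  have h5 : ((2 : ℂ) ^ k - 1) * ((2 : ℂ) ^ k - 2) * (c - 1) ^ 2 = 0 := by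
    linear_combination h4 - 3 * h2
  have h6 := (mul_eq_zero.mp h5).resolve_right hA
  have h7 : ∀ j : ℤ, (2 : ℂ) ^ k = 2 ^ j → k = j := by
    intro j hj
    have := congrArg norm hj
    rw [norm_zpow, norm_zpow] at this
    have h8 : (2 : ℝ) ^ k = 2 ^ j := by simpa using this
    exact zpow_right_injective₀ (a := (2 : ℝ)) (by norm_num) (by norm_num) h8
  rcases mul_eq_zero.mp h6 with h | h
  · exact hk0 (h7 0 (by rw [zpow_zero]; exact sub_eq_zero.mp h))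
  · exact hk1 (h7 1 (by rw [zpow_one]; exact sub_eq_zero.mp h))

/-- `n > 0`, `k ≥ 2`, `t ≤ 0`. -/
lemma case_k_pos_t_nonpos {c cs q : ℂ} {k n T : ℕ} (hc : c ≠ 0) (hcs1 : cs ≠ 1)
    (hn : 0 < n) (hk : 2 ≤ k) (hT : TR c cs q k n (-(T : ℤ))) : False := by
  have hk1 : k - 1 ≠ 0 := by omega
  have key := eq_at_zero
    (f := fun τ => ((τ ^ T * cs⁻¹) ^ k - 1) * (τ ^ n * c - 1) ^ 2 * (τ ^ n * c) ^ (k - 1))
    (g := fun τ => (τ ^ T * cs⁻¹ - 1) * (((τ ^ n * c) ^ k - 1) * (τ ^ n * c - 1) +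
      k * q * ((τ ^ n * c) ^ k * (τ ^ n * c) ^ (k - 1)) * (τ ^ n * c - 1) -
      q * (τ ^ n * c) ^ k * ((τ ^ n * c) ^ k - 1))) (by fun_prop) (by fun_prop) (by
        intro τ hτ
        have h1 := hT τ hτ
        simp only [neg_neg, zpow_natCast] at h1
        have hx : τ ^ n * c ≠ 0 := mul_ne_zero (pow_ne_zero _ hτ) hc
        set x := τ ^ n * c with hxdef
        have e1 : x ^ k = x * x ^ (k - 1) := by
          rw [← pow_succ']; congr 1; omega
        rw [h1, mul_assoc]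
        congr 1
        have hxk : x ^ (k - 1) ≠ 0 := pow_ne_zero _ hx
        rw [e1]
        push_cast
        field_simp)
  simp only [zero_pow hn.ne', zero_mul, zero_sub, zero_pow hk1, mul_zero,
    zero_pow (show k ≠ 0 by omega), sub_zero, add_zero] at key
  rcases Nat.eq_zero_or_pos T with hT0 | hT0
  · subst hT0
    simp only [pow_zero, one_mul] at key
    have : cs⁻¹ - 1 = 0 := by linear_combination -key
    rw [sub_eq_zero] at this
    exact hcs1 (inv_eq_one.mp this)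
  · rw [zero_pow hT0.ne'] at key
    norm_num at key

/-- `n > 0`, `k ≥ 2`, `t > 0`. -/
lemma case_k_pos_t_pos {c cs q : ℂ} {k n T : ℕ} (hc : c ≠ 0) (hq : q ≠ 0)
    (hn : 0 < n) (hk : 2 ≤ k) (hT0 : 0 < T) (hT : TR c cs q k n T) : False := by
  have hk1 : k - 1 ≠ 0 := by omega
  have key := eq_at_zero
    (f := fun σ => ((σ ^ T * cs⁻¹) ^ k - 1) * (σ ^ n * c⁻¹) ^ (k - 1) * (1 - σ ^ n * c⁻¹) ^ 2)
    (g := fun σ => (σ ^ T * cs⁻¹ - 1) * ((σ ^ n * c⁻¹) ^ (k - 1) * (1 - (σ ^ n * c⁻¹) ^ k) *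
      (1 - σ ^ n * c⁻¹) + k * q * (1 - σ ^ n * c⁻¹) - q * (1 - (σ ^ n * c⁻¹) ^ k)))
      (by fun_prop) (by fun_prop) (by
        intro σ hσ
        have h1 := hT σ⁻¹ (inv_ne_zero hσ)
        simp only [zpow_neg, zpow_natCast, inv_pow, inv_inv] at h1
        have hw : σ ^ n * c⁻¹ ≠ 0 := mul_ne_zero (pow_ne_zero _ hσ) (inv_ne_zero hc)
        have hx : (σ ^ n)⁻¹ * c = (σ ^ n * c⁻¹)⁻¹ := by rw [mul_inv, inv_inv]
        rw [hx] at h1
        set w := σ ^ n * c⁻¹ with hwdef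
        set y := σ ^ T * cs⁻¹ with hydef
        have e1 : w ^ k = w * w ^ (k - 1) := by
          rw [← pow_succ']; congr 1; omega
        have hwk : w ^ (k - 1) ≠ 0 := pow_ne_zero _ hw
        simp only [inv_pow, inv_inv] at h1
        rw [e1] at h1 ⊢
        have e2 : (y ^ k - 1) * w ^ (k - 1) * (1 - w) ^ 2 =
            ((y ^ k - 1) * (w⁻¹ - 1) ^ 2) * (w ^ 2 * w ^ (k - 1)) := by
          field_simp
        rw [e2, h1]
        push_cast
        field_simp)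
  simp only [zero_pow hn.ne', zero_mul, zero_sub, zero_pow hk1, mul_zero,
    zero_pow (show k ≠ 0 by omega), sub_zero, add_zero, zero_pow hT0.ne', zero_add, mul_one] at key
  have h1 : ((k : ℂ) - 1) * q = 0 := by linear_combination key
  rcases mul_eq_zero.mp h1 with h | h
  · have : (k : ℂ) = 1 := sub_eq_zero.mp h
    have : k = 1 := by exact_mod_cast this
    omega
  · exact hq h

/-- `n > 0`, `k = -j`, `j ≥ 1`, `t ≥ 0`. -/
lemma case_k_neg_t_nonneg {c cs q : ℂ} {j n T : ℕ} (hc : c ≠ 0) (hcs : cs ≠ 0) (hcs1 : cs ≠ 1)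
    (hq : q ≠ 0) (hn : 0 < n) (hj : 1 ≤ j) (hT : TR c cs q (-(j : ℤ)) n T) : False := by
  have key := eq_at_zero
    (f := fun τ => (τ ^ T * cs) * ((τ ^ T * cs) ^ j - 1) * (τ ^ n * c - 1) ^ 2 * (τ ^ n * c) ^ j)
    (g := fun τ => (1 - τ ^ T * cs) * ((τ ^ n * c - (τ ^ n * c) * (τ ^ n * c) ^ j) *
      (τ ^ n * c - 1) * (τ ^ n * c) ^ j - j * q * (τ ^ n * c - 1) -
      q * (τ ^ n * c) * (1 - (τ ^ n * c) ^ j))) (by fun_prop) (by fun_prop) (by
        intro τ hτ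
        have h1 := hT τ hτ
        simp only [zpow_neg, zpow_natCast, inv_inv] at h1
        have hx : τ ^ n * c ≠ 0 := mul_ne_zero (pow_ne_zero _ hτ) hc
        have hv : τ ^ T * cs ≠ 0 := mul_ne_zero (pow_ne_zero _ hτ) hcs
        have hy : (τ ^ T)⁻¹ * cs⁻¹ = (τ ^ T * cs)⁻¹ := by rw [mul_inv]
        rw [hy] at h1
        set x := τ ^ n * c with hxdef
        set v := τ ^ T * cs with hvdef
        simp only [inv_pow, inv_inv] at h1
        have hxj : x ^ j ≠ 0 := pow_ne_zero _ hx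
        have e2 : v * (v ^ j - 1) * (x - 1) ^ 2 * x ^ j =
            ((v ^ j - 1) * (x - 1) ^ 2) * (v * x ^ j) := by ring
        rw [e2, h1]
        push_cast
        field_simp
        ring)
  simp only [zero_pow hn.ne', zero_mul, zero_sub, mul_zero,
    zero_pow (show j ≠ 0 by omega), sub_zero, mul_one, sub_neg_eq_add, zero_add, mul_neg] at key
  have hjq : (j : ℂ) * q ≠ 0 := mul_ne_zero (by exact_mod_cast (by omega : j ≠ 0)) hq
  rcases Nat.eq_zero_or_pos T with hT0 | hT0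
  · subst hT0
    simp only [pow_zero, one_mul] at key
    rcases mul_eq_zero.mp key.symm with h | h
    · exact hcs1 (sub_eq_zero.mp h).symm
    · exact hjq h
  · rw [zero_pow hT0.ne', zero_mul, sub_zero, one_mul] at key
    exact hjq key.symm

/-- `n > 0`, `k = -j`, `j ≥ 1`, `t < 0`. -/
lemma case_k_neg_t_neg {c cs q : ℂ} {j n T : ℕ} (hc : c ≠ 0) (hcs : cs ≠ 0)
    (hn : 0 < n) (hj : 1 ≤ j) (hT0 : 0 < T) (hT : TR c cs q (-(j : ℤ)) n (-(T : ℤ))) : False := by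
  have key := eq_at_zero
    (f := fun σ => (σ ^ T * cs) * ((σ ^ T * cs) ^ j - 1) * (1 - σ ^ n * c⁻¹) ^ 2 *
      (σ ^ n * c⁻¹) ^ j)
    (g := fun σ => (1 - σ ^ T * cs) * (((σ ^ n * c⁻¹) ^ j - 1) * (1 - σ ^ n * c⁻¹) -
      j * q * ((σ ^ n * c⁻¹) ^ j * (σ ^ n * c⁻¹) ^ j * (σ ^ n * c⁻¹)) * (1 - σ ^ n * c⁻¹) -
      q * ((σ ^ n * c⁻¹) * (σ ^ n * c⁻¹) ^ j) * ((σ ^ n * c⁻¹) ^ j - 1)))
      (by fun_prop) (by fun_prop) (by
        intro σ hσ
        have h1 := hT σ⁻¹ (inv_ne_zero hσ)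
        simp only [neg_neg, zpow_neg, zpow_natCast, inv_pow] at h1
        have hw : σ ^ n * c⁻¹ ≠ 0 := mul_ne_zero (pow_ne_zero _ hσ) (inv_ne_zero hc)
        have hv : σ ^ T * cs ≠ 0 := mul_ne_zero (pow_ne_zero _ hσ) hcs
        have hx : (σ ^ n)⁻¹ * c = (σ ^ n * c⁻¹)⁻¹ := by rw [mul_inv, inv_inv]
        have hy : (σ ^ T)⁻¹ * cs⁻¹ = (σ ^ T * cs)⁻¹ := by rw [mul_inv]
        rw [hx, hy] at h1
        set w := σ ^ n * c⁻¹ with hwdef
        set v := σ ^ T * cs with hvdef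
        simp only [inv_pow, inv_inv] at h1
        have hwj : w ^ j ≠ 0 := pow_ne_zero _ hw
        have e2 : v * (v ^ j - 1) * (1 - w) ^ 2 * w ^ j =
            ((v ^ j - 1) * (w⁻¹ - 1) ^ 2) * (v * w ^ 2 * w ^ j) := by
          field_simp
        rw [e2, h1]
        push_cast
        field_simp
        ring)
  simp only [zero_pow hn.ne', zero_mul, zero_sub, mul_zero,
    zero_pow (show j ≠ 0 by omega), sub_zero, mul_one, zero_pow hT0.ne'] at key
  norm_num at key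

/-- The reduced identity is contradictory. -/
lemma TR_false {c cs q : ℂ} {k n t : ℤ} (hc : c ≠ 0) (hcs : cs ≠ 0) (hc1 : c ≠ 1) (hcs1 : cs ≠ 1)
    (hn : 0 ≤ n) (hq : 0 < n → q ≠ 0) (hnt : ¬ (n = 0 ∧ t = 0)) (hk0 : k ≠ 0) (hk1 : k ≠ 1)
    (hT : TR c cs q k n t) : False := by
  rcases hn.eq_or_lt with h0 | hn0
  · subst h0
    exact case_n_zero hc1 hcs (fun h => hnt ⟨rfl, h⟩) hk0 hk1 hT
  · obtain ⟨N, rfl⟩ := Int.eq_ofNat_of_zero_le hn
    have hN : 0 < N := by exact_mod_cast hn0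
    have hq' := hq hn0
    rcases lt_or_ge k 0 with hk | hk
    · obtain ⟨j, hj⟩ := Int.eq_ofNat_of_zero_le (show 0 ≤ -k by omega)
      have hk' : k = -(j : ℤ) := by omega
      rw [hk'] at hT
      rcases lt_or_ge t 0 with ht | ht
      · obtain ⟨T, hT'⟩ := Int.eq_ofNat_of_zero_le (show 0 ≤ -t by omega)
        have ht' : t = -(T : ℤ) := by omega
        rw [ht'] at hT
        exact case_k_neg_t_neg hc hcs hN (by omega) (by omega) hT
      · obtain ⟨T, rfl⟩ := Int.eq_ofNat_of_zero_le ht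
        exact case_k_neg_t_nonneg hc hcs hcs1 hq' hN (by omega) hT
    · obtain ⟨K, rfl⟩ := Int.eq_ofNat_of_zero_le hk
      have hK : 2 ≤ K := by
        have h1 : K ≠ 0 := fun h => hk0 (by rw [h]; rfl)
        have h2 : K ≠ 1 := fun h => hk1 (by rw [h]; rfl)
        omega
      rcases lt_or_ge 0 t with ht | ht
      · obtain ⟨T, rfl⟩ := Int.eq_ofNat_of_zero_le ht.le
        exact case_k_pos_t_pos hc hq' hN hK (by exact_mod_cast ht) hT
      · obtain ⟨T, hT'⟩ := Int.eq_ofNat_of_zero_le (show 0 ≤ -t by omega)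
        have ht' : t = -(T : ℤ) := by omega
        rw [ht'] at hT
        exact case_k_pos_t_nonpos hc hcs1 hN hK hT

end

end Pool.Agent.H26b
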