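import Pool.Agent.Lib.H26b.Reduce

open Filter Topology Set
open scoped Real

namespace Pool.Agent.H26b

noncomputable section

lemma tendsto_add_punctured (z c : ℂ) :
    Tendsto (fun w => w + c) (𝓝[≠] z) (𝓝[≠] (z + c)) := by
  apply tendsto_nhdsWithin_of_tendsto_nhds_of_eventually_within
  · exact ((continuous_id.add continuous_const).tendsto z).mono_left nhdsWithin_le_nhds
  · filter_upwards [self_mem_nhdsWithin] with w hw
    intro h
    apply hw
    simpa using h

/-- The main theorem for meromorphic functions that are not affine. -/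
theorem meromorphic_case {f : ℂ → ℂ} (hf : Meromorphic f) (c a₁ a₂ : ℂ) (ha : a₁ ≠ a₂)
    (hna : ¬ ∃ a b : ℂ, f =ᶠ[codiscrete ℂ] fun z => a * z + b)
    (h1 : ShareCM (deriv f) (shiftDiff c f) a₁) (h2 : ShareCM (deriv f) (shiftDiff c f) a₂)
    (hinf : ShareInftyCM (deriv f) (shiftDiff c f)) :
    deriv f =ᶠ[codiscrete ℂ] shiftDiff c f := by
  have hmer : MeromorphicOn f univ := fun z _ => hf z
  set F := toMeromorphicNFOn f univ with hF
  have hNF : MeromorphicNFOn F univ := meromorphicNFOn_toMeromorphicNFOn _ _
  have hloc : ∀ z, F =ᶠ[𝓝[≠] z] f := fun z => hmer.toMeromorphicNFOn_eq_self_on_nhdsNE (mem_univ z)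
  have han : ∀ z, AnalyticAt ℂ F z := fun z => by
    apply ((hNF (mem_univ z)).meromorphicOrderAt_nonneg_iff_analyticAt).mp
    rw [hF, meromorphicOrderAt_toMeromorphicNFOn hmer (mem_univ z)]
    exact no_poles hf c hinf z
  have hFd : Differentiable ℂ F := fun z => (han z).differentiableAt
  have hder : ∀ z, deriv F =ᶠ[𝓝[≠] z] deriv f := fun z => (hloc z).nhdsNE_deriv
  have hsh : ∀ z, shiftDiff c F =ᶠ[𝓝[≠] z] shiftDiff c f := by
    intro z
    have h3 := (tendsto_add_punctured z c).eventually (hloc (z + c))
    filter_upwards [hloc z, h3] with w hw1 hw2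
    simp only [shiftDiff, hw1, hw2]
  have htr : ∀ a, ShareCM (deriv f) (shiftDiff c f) a → ShareCM (deriv F) (shiftDiff c F) a := by
    intro a hsa z
    have e1 : meromorphicOrderAt (fun w => deriv F w - a) z =
        meromorphicOrderAt (fun w => deriv f w - a) z := by
      apply meromorphicOrderAt_congr
      filter_upwards [hder z] with w hw
      rw [hw]
    have e2 : meromorphicOrderAt (fun w => shiftDiff c F w - a) z =
        meromorphicOrderAt (fun w => shiftDiff c f w - a) z := by
      apply meromorphicOrderAt_congr
      filter_upwards [hsh z] with w hw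
      rw [hw]
    rw [e1, e2]
    exact hsa z
  have hmain := entire_case hFd c a₁ a₂ ha (by
    rintro ⟨a, b, hab⟩
    apply hna
    refine ⟨a, b, ?_⟩
    apply codiscrete_iff.mpr
    intro z
    filter_upwards [hloc z] with w hw
    rw [← hw, hab]) (htr a₁ h1) (htr a₂ h2)
  apply codiscrete_iff.mpr
  intro z
  filter_upwards [hder z, hsh z] with w hw1 hw2
  rw [← hw1, ← hw2, hmain]

/-- Affine functions have finite hyper-order. -/
lemma hyperOrder_affine {f : ℂ → ℂ} {a b : ℂ} (h : f =ᶠ[codiscrete ℂ] fun z => a * z + b) :
    hyperOrder f ≠ ⊤ := by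
  have hent : Differentiable ℂ (fun z : ℂ => a * z + b) := by fun_prop
  have hT : ∀ r : ℝ, r ≠ 0 → ValueDistribution.characteristic f ⊤ r =
      mm (fun z => a * z + b) r := by
    intro r hr
    rw [ValueDistribution.characteristic_congr_codiscrete h hr]
    have : ValueDistribution.characteristic (fun z : ℂ => a * z + b) ⊤ r =
      mm (fun z => a * z + b) r + ValueDistribution.logCounting (fun z : ℂ => a * z + b) ⊤ r := rfl
    rw [this, logCounting_top_entire hent]
    simp
  have hbound : ∀ᶠ r in atTop,
      Real.log (Real.log (ValueDistribution.characteristic f ⊤ r)) / Real.log r ≤ 2 := by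
    by_cases ha : a = 0
    · subst ha
      have hconst : ∀ r : ℝ, r ≠ 0 → ValueDistribution.characteristic f ⊤ r =
          Real.posLog ‖b‖ := by
        intro r hr
        rw [hT r hr]
        simp
      have ht : Tendsto (fun r : ℝ => Real.log (Real.log (Real.posLog ‖b‖)) / Real.log r)
          atTop (𝓝 0) := tendsto_const_nhds.div_atTop Real.tendsto_log_atTop
      filter_upwards [ht.eventually (eventually_le_nhds (by norm_num : (0:ℝ) < 2)),
        eventually_gt_atTop 0] with r hr1 hr2
      rw [hconst r hr2.ne']
      exact hr1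
    · have ha0 : 0 < ‖a‖ := norm_pos_iff.mpr ha
      have hR : Tendsto (fun r : ℝ => ‖a‖ * r - ‖b‖) atTop atTop :=
        tendsto_atTop_add_const_right _ _ (tendsto_id.const_mul_atTop ha0)
      filter_upwards [hR.eventually_ge_atTop (Real.exp 1), eventually_ge_atTop (‖a‖ + ‖b‖ + 1)]
        with r hr1 hr2
      have hr0 : 1 ≤ r := by linarith [norm_nonneg b]
      rw [hT r (by linarith)]
      set T := mm (fun z => a * z + b) r with hTdef
      -- lower bound
      have hlow : 1 ≤ T := by
        have h3 : Real.circleAverage (fun _ => (1 : ℝ)) 0 r ≤ T := by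
          rw [hTdef]
          unfold mm
          rw [ValueDistribution.proximity_top]
          apply Real.circleAverage_mono
          · exact circleIntegrable_const _ _ _
          · exact (entire_mero hent).meromorphicOn.circleIntegrable_posLog_norm
          · intro x hx
            rw [mem_sphere_zero_iff_norm, abs_of_nonneg (by linarith)] at hx
            have h4 : Real.exp 1 ≤ ‖a * x + b‖ := by
              have h5 : ‖a * x‖ - ‖b‖ ≤ ‖a * x + b‖ := by
                have := norm_sub_norm_le (a * x) (-b)
                rwa [norm_neg, sub_neg_eq_add] at this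
              rw [norm_mul, hx] at h5
              linarith
            calc (1 : ℝ) = Real.log (Real.exp 1) := (Real.log_exp 1).symm
              _ ≤ Real.log ‖a * x + b‖ := Real.log_le_log (Real.exp_pos 1) h4
              _ ≤ Real.posLog ‖a * x + b‖ := le_max_right _ _
        rwa [Real.circleAverage_const] at h3
      -- upper bound
      have hup : T ≤ 2 * Real.log r := by
        have h3 : T ≤ Real.posLog (r * r) := by
          apply mm_le_of_bound hent (by linarith)
          intro z hz
          calc ‖a * z + b‖ ≤ ‖a‖ * ‖z‖ + ‖b‖ := (norm_add_le _ _).trans (by rw [norm_mul])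
            _ ≤ ‖a‖ * r + ‖b‖ * r := by
                gcongr
                nlinarith [norm_nonneg b]
            _ = (‖a‖ + ‖b‖) * r := by ring
            _ ≤ r * r := by gcongr; linarith
        have h4 : Real.posLog (r * r) = 2 * Real.log r := by
          rw [Real.posLog_eq_log (by rw [abs_of_nonneg (by positivity)]; nlinarith),
            Real.log_mul (by linarith) (by linarith)]
          ring
        rwa [h4] at h3
      have hlogT : 0 ≤ Real.log T := Real.log_nonneg hlow
      have h5 : Real.log (Real.log T) ≤ 2 * Real.log r :=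
        (Real.log_le_self hlogT).trans ((Real.log_le_self (by linarith)).trans hup)
      have hlr : 0 < Real.log r := by
        have : 0 < 2 * Real.log r := lt_of_lt_of_le (by linarith) hup
        linarith
      rw [div_le_iff₀ hlr]
      exact h5
  intro htop
  have hle : hyperOrder f ≤ ((2 : ℝ) : EReal) := by
    unfold hyperOrder
    apply limsup_le_of_le
    · isBoundedDefault
    · filter_upwards [hbound] with r hr
      exact_mod_cast hr
  rw [htop] at hle
  exact absurd hle (by simp)

/-- The main theorem. -/
theorem main {f : ℂ → ℂ} (hf : Meromorphic f) (c a₁ a₂ : ℂ) (ha : a₁ ≠ a₂)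
    (hna : hyperOrder f = ⊤ ∨ ¬ ∃ a b : ℂ, f =ᶠ[codiscrete ℂ] fun z => a * z + b)
    (h1 : ShareCM (deriv f) (shiftDiff c f) a₁) (h2 : ShareCM (deriv f) (shiftDiff c f) a₂)
    (hinf : ShareInftyCM (deriv f) (shiftDiff c f)) :
    deriv f =ᶠ[codiscrete ℂ] shiftDiff c f := by
  apply meromorphic_case hf c a₁ a₂ ha _ h1 h2 hinf
  rcases hna with h | h
  · rintro ⟨a, b, hab⟩
    exact hyperOrder_affine hab h
  · exact h

end

end Pool.Agent.H26b
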