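import Pool.Agent.Lib.H26b.Hom

open Filter Topology Set Metric Asymptotics
open scoped Real

namespace Pool.Agent.H26b

noncomputable section

lemma mm_cont {f : ℂ → ℂ} (hf : Differentiable ℂ f) : Continuous (mm f) :=
  ValueDistribution.continuous_proximity_top hf.continuous

lemma mm_ex_eq (g : ℂ → ℂ) (r : ℝ) : mm (ex g) r = mm (fun z => Complex.exp (g z)) r := rfl

/-- The characteristic of the exponential of a non-constant entire function grows at least
linearly. -/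
lemma linear_growth {g : ℂ → ℂ} (hg : Differentiable ℂ g) (hg0 : deriv g ≠ 0) :
    ∃ ε > 0, ∀ᶠ R in atTop, ε * R ≤ mm (ex g) R := by
  obtain ⟨z₀, hz₀⟩ : ∃ z, deriv g z ≠ 0 := by
    by_contra hne
    push Not at hne
    exact hg0 (funext hne)
  set D := ‖deriv g z₀‖ with hD
  have hD0 : 0 < D := norm_pos_iff.mpr hz₀
  refine ⟨D / 1728, by positivity, ?_⟩
  filter_upwards [eventually_ge_atTop (2 * ‖z₀‖ + 1),
    eventually_ge_atTop (1728 * (‖g 0‖ / 12 + 1) / D)] with R hR1 hR2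
  have hR : 0 < R := by linarith [norm_nonneg z₀]
  have h := deriv_bound hg 1 (r := R / 2) (R := R) (by linarith) (by linarith) (z := z₀)
    (by linarith)
  rw [iteratedDeriv_one, ← mm_ex_eq, ← hD] at h
  set T := mm (ex g) R with hT
  have hT0 : 0 ≤ T := mm_nonneg _ _
  have e : ((Nat.factorial 1 : ℕ) : ℝ) *
      (6 * R * (6 * R * (T + 1) / (R - R / 2) + ‖g 0‖) / (R - R / 2)) / ((R - R / 2) / 3) ^ 1 =
      72 * (12 * (T + 1) + ‖g 0‖) / R := by
    have : R - R / 2 = R / 2 := by ring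
    rw [this, Nat.factorial_one]
    field_simp
    push_cast
    ring
  rw [e, le_div_iff₀ hR] at h
  rw [div_le_iff₀ hD0] at hR2
  linarith

/-- Borel's growth lemma: there are arbitrarily large good radii. -/
lemma good_radii {M : ℝ → ℝ} (hMc : Continuous M) (hM : Tendsto M atTop atTop) :
    ∃ᶠ r in atTop, M (r + 1 / M r) ≤ 2 * M r := by
  by_contra hcon
  rw [not_frequently] at hcon
  obtain ⟨r₀, hr₀⟩ := eventually_atTop.mp (hcon.and (hM.eventually_ge_atTop 1))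
  -- the sequence of radii
  let ρ : ℕ → ℝ := fun n => Nat.rec r₀ (fun _ r => r + 1 / M r) n
  have hρ0 : ρ 0 = r₀ := rfl
  have hρs : ∀ n, ρ (n + 1) = ρ n + 1 / M (ρ n) := fun n => rfl
  have hge : ∀ n, r₀ ≤ ρ n ∧ (2 : ℝ) ^ n ≤ M (ρ n) ∧ ρ n ≤ r₀ + 2 - 2 / 2 ^ n := by
    intro n
    induction n with
    | zero =>
      refine ⟨le_rfl, ?_, ?_⟩
      · rw [hρ0, pow_zero]; exact (hr₀ r₀ le_rfl).2
      · rw [hρ0]; norm_num
    | succ n ih =>
      obtain ⟨h1, h2, h3⟩ := ih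
      have hMpos : 0 < M (ρ n) := lt_of_lt_of_le (by positivity) h2
      have h4 := (hr₀ (ρ n) h1).1
      rw [not_le] at h4
      refine ⟨?_, ?_, ?_⟩
      · rw [hρs]
        have : 0 < 1 / M (ρ n) := by positivity
        linarith
      · rw [hρs, pow_succ]; linarith
      · rw [hρs]
        have h5 : 1 / M (ρ n) ≤ 1 / 2 ^ n := one_div_le_one_div_of_le (by positivity) h2
        have h6 : (2 : ℝ) / 2 ^ n = 2 / 2 ^ (n + 1) + 1 / 2 ^ n := by
          rw [pow_succ]; field_simp; ring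
        linarith
  obtain ⟨K, hK⟩ := (isCompact_Icc (a := r₀) (b := r₀ + 2)).bddAbove_image hMc.continuousOn
  obtain ⟨n, hn⟩ := pow_unbounded_of_one_lt K (by norm_num : (1 : ℝ) < 2)
  have h1 := hge n
  have h2 : M (ρ n) ≤ K := by
    apply hK
    refine ⟨ρ n, ⟨h1.1, ?_⟩, rfl⟩
    have : (0:ℝ) < 2 / 2 ^ n := by positivity
    linarith [h1.2.2]
  linarith [h1.2.1]

variable {ι : Type*} [Fintype ι]

/-- The growth function. -/
def MM (φ : ι → ℂ → ℂ) : ℝ → ℝ := fun r => ∑ i, mm (ex (φ i)) r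

lemma mm_le_MM (φ : ι → ℂ → ℂ) (i : ι) (r : ℝ) : mm (ex (φ i)) r ≤ MM φ r :=
  Finset.single_le_sum (f := fun i => mm (ex (φ i)) r) (fun _ _ => mm_nonneg _ _)
    (Finset.mem_univ i)

lemma MM_cont {φ : ι → ℂ → ℂ} (hφ : ∀ i, Differentiable ℂ (φ i)) : Continuous (MM φ) := by
  unfold MM
  exact continuous_finsetSum _ fun i _ => mm_cont (ex_diff (hφ i))

/-- The filter of good radii. -/
def FF (φ : ι → ℂ → ℂ) : Filter ℝ :=
  atTop ⊓ 𝓟 {r | MM φ (r + 1 / MM φ r) ≤ 2 * MM φ r}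

lemma FF_le (φ : ι → ℂ → ℂ) : FF φ ≤ atTop := inf_le_left

lemma MM_linear {φ : ι → ℂ → ℂ} (hφ : ∀ i, Differentiable ℂ (φ i)) {i : ι}
    (hi : deriv (φ i) ≠ 0) : ∃ ε > 0, ∀ᶠ R in atTop, ε * R ≤ MM φ R := by
  obtain ⟨ε, hε, h⟩ := linear_growth (hφ i) hi
  exact ⟨ε, hε, h.mono fun R hR => hR.trans (mm_le_MM φ i R)⟩

lemma MM_tendsto {φ : ι → ℂ → ℂ} (hφ : ∀ i, Differentiable ℂ (φ i)) {i : ι}
    (hi : deriv (φ i) ≠ 0) : Tendsto (MM φ) atTop atTop := by
  obtain ⟨ε, hε, h⟩ := MM_linear hφ hi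
  exact tendsto_atTop_mono' _ h (tendsto_id.const_mul_atTop hε)

lemma FF_neBot {φ : ι → ℂ → ℂ} (hφ : ∀ i, Differentiable ℂ (φ i)) {i : ι}
    (hi : deriv (φ i) ≠ 0) : (FF φ).NeBot := by
  unfold FF
  rw [← frequently_mem_iff_neBot]
  exact good_radii (MM_cont hφ) (MM_tendsto hφ hi)

lemma MM_tendsto_FF {φ : ι → ℂ → ℂ} (hφ : ∀ i, Differentiable ℂ (φ i)) {i : ι}
    (hi : deriv (φ i) ≠ 0) : Tendsto (MM φ) (FF φ) atTop :=
  (MM_tendsto hφ hi).mono_left (FF_le φ)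

/-- Derivatives of the exponents are small. -/
lemma small_deriv {φ : ι → ℂ → ℂ} (hφ : ∀ i, Differentiable ℂ (φ i)) {i₀ : ι}
    (hi₀ : deriv (φ i₀) ≠ 0) (i : ι) : Small (MM φ) (FF φ) (deriv (φ i)) := by
  refine ⟨entire_deriv (hφ i), fun k => ?_⟩
  rw [← iteratedDeriv_succ']
  obtain ⟨ε, hε, hlin⟩ := MM_linear hφ hi₀
  set C₁ := 1 / ε with hC₁
  have hC₁0 : 0 < C₁ := by positivity
  set K : ℝ := (k + 1).factorial * (6 * (C₁ + 1) * (18 * (C₁ + 1) + ‖φ i 0‖)) * 3 ^ (k + 1) with hK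
  have hK0 : 0 ≤ K := by positivity
  have hMF := MM_tendsto_FF hφ hi₀
  have hbd : ∀ᶠ r in FF φ, mm (iteratedDeriv (k + 1) (φ i)) r ≤
      Real.posLog K + (k + 6) * Real.log (MM φ r) := by
    have hgood : ∀ᶠ r in FF φ, MM φ (r + 1 / MM φ r) ≤ 2 * MM φ r :=
      mem_inf_of_right (mem_principal_self _)
    filter_upwards [hgood, FF_le φ hlin, FF_le φ (eventually_ge_atTop 0),
      hMF.eventually_ge_atTop 1] with r h1 h2 h3 h4
    set m := MM φ r with hm
    have hm0 : 0 < m := by linarith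
    have hrm : r ≤ C₁ * m := by
      rw [hC₁, div_mul_eq_mul_div, one_mul, le_div_iff₀ hε]
      linarith
    set R := r + 1 / m with hR
    have hm1 : 1 / m ≤ 1 := by rw [div_le_one hm0]; exact h4
    have hm1' : 0 < 1 / m := by positivity
    have hRm : R ≤ (C₁ + 1) * m := by rw [hR]; nlinarith
    have hR0 : 0 < R := by rw [hR]; linarith
    have hδ : R - r = 1 / m := by rw [hR]; ring
    have hT : mm (ex (φ i)) R ≤ 2 * m := (mm_le_MM φ i R).trans h1
    have hT0 : 0 ≤ mm (ex (φ i)) R := mm_nonneg _ _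
    have key : ∀ z : ℂ, ‖z‖ ≤ r → ‖iteratedDeriv (k + 1) (φ i) z‖ ≤ K * m ^ (k + 6) := by
      intro z hz
      have h := deriv_bound (hφ i) (k + 1) h3 (by rw [hR]; linarith : r < R) hz
      rw [← mm_ex_eq, hδ] at h
      refine h.trans ?_
      have e1 : 6 * R * (mm (ex (φ i)) R + 1) / (1 / m) + ‖φ i 0‖ ≤
          (18 * (C₁ + 1) + ‖φ i 0‖) * m ^ 3 := by
        have e2 : 6 * R * (mm (ex (φ i)) R + 1) / (1 / m) =
            6 * R * (mm (ex (φ i)) R + 1) * m := by field_simp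
        rw [e2, add_mul]
        have e3 : 6 * R * (mm (ex (φ i)) R + 1) * m ≤ 6 * ((C₁ + 1) * m) * (3 * m) * m := by
          gcongr
          linarith
        have e4 : ‖φ i 0‖ * 1 ≤ ‖φ i 0‖ * m ^ 3 := by
          gcongr
          exact one_le_pow₀ h4
        nlinarith
      have e5 : 6 * R * (6 * R * (mm (ex (φ i)) R + 1) / (1 / m) + ‖φ i 0‖) / (1 / m) ≤
          6 * (C₁ + 1) * (18 * (C₁ + 1) + ‖φ i 0‖) * m ^ 5 := by
        have e6 : 6 * R * (6 * R * (mm (ex (φ i)) R + 1) / (1 / m) + ‖φ i 0‖) / (1 / m) =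
            6 * R * (6 * R * (mm (ex (φ i)) R + 1) / (1 / m) + ‖φ i 0‖) * m := by field_simp
        rw [e6]
        calc 6 * R * (6 * R * (mm (ex (φ i)) R + 1) / (1 / m) + ‖φ i 0‖) * m
            ≤ 6 * ((C₁ + 1) * m) * ((18 * (C₁ + 1) + ‖φ i 0‖) * m ^ 3) * m := by gcongr
          _ = 6 * (C₁ + 1) * (18 * (C₁ + 1) + ‖φ i 0‖) * m ^ 5 := by ring
      have e7 : (1 / m / 3) ^ (k + 1) = 1 / (3 ^ (k + 1) * m ^ (k + 1)) := by
        rw [div_div, div_pow, one_pow, mul_comm m 3, mul_pow]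
      rw [e7]
      calc ((k + 1).factorial : ℝ) *
            (6 * R * (6 * R * (mm (ex (φ i)) R + 1) / (1 / m) + ‖φ i 0‖) / (1 / m)) /
            (1 / (3 ^ (k + 1) * m ^ (k + 1)))
          = ((k + 1).factorial : ℝ) *
            (6 * R * (6 * R * (mm (ex (φ i)) R + 1) / (1 / m) + ‖φ i 0‖) / (1 / m)) *
            (3 ^ (k + 1) * m ^ (k + 1)) := by rw [div_div_eq_mul_div, div_one]
        _ ≤ ((k + 1).factorial : ℝ) *
            (6 * (C₁ + 1) * (18 * (C₁ + 1) + ‖φ i 0‖) * m ^ 5) *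
            (3 ^ (k + 1) * m ^ (k + 1)) := by gcongr
        _ = K * m ^ (k + 6) := by rw [hK]; ring
    have h5 := mm_le_of_bound (entire_iter (hφ i) (k + 1)) h3 key
    refine h5.trans ?_
    refine (Real.posLog_mul).trans ?_
    gcongr
    have h6 : Real.posLog (m ^ (k + 6)) = (k + 6 : ℕ) * Real.posLog m := Real.posLog_pow _ _
    have h7 : Real.posLog m = Real.log m := Real.posLog_eq_log (by rw [abs_of_pos hm0]; exact h4)
    rw [h6, h7]
    push_cast
    exact le_rfl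
  refine isLittleO_of_le (fun r => mm_nonneg _ r) hbd ?_
  apply (const_isLittleO hMF _).add
  apply IsLittleO.const_mul_left
  exact (Real.isLittleO_log_id_atTop.comp_tendsto hMF)

/-- Not all the exponentials are small. -/
lemma exists_not_small {φ : ι → ℂ → ℂ} (hφ : ∀ i, Differentiable ℂ (φ i)) {i₀ : ι}
    (hi₀ : deriv (φ i₀) ≠ 0) : ∃ i, ¬ Small (MM φ) (FF φ) (ex (φ i)) := by
  by_contra hcon
  push Not at hcon
  have h1 : MM φ =o[FF φ] MM φ := by
    have h2 : (∑ i, fun r => mm (ex (φ i)) r) =o[FF φ] MM φ :=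
      IsLittleO.sum fun i _ => (hcon i).mm0
    have e : (∑ i, fun r => mm (ex (φ i)) r) = MM φ := by
      funext r
      rw [Finset.sum_apply]
      rfl
    rwa [e] at h2
  have hne := FF_neBot hφ hi₀
  have hMF := MM_tendsto_FF hφ hi₀
  have h3 := (isLittleO_iff.mp h1) (show (0:ℝ) < 1 / 2 by norm_num)
  obtain ⟨r, hr1, hr2⟩ := (h3.and (hMF.eventually_ge_atTop 1)).exists
  rw [Real.norm_of_nonneg (by linarith)] at hr1
  linarith

end

end Pool.Agent.H26b
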