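import Pool.Agent.Lib.H26b.Borel

open Filter Topology Set Metric Asymptotics
open scoped Real

namespace Pool.Agent.H26b

noncomputable section

variable {M : ℝ → ℝ} {F : Filter ℝ} {A : Type*} [AddCommGroup A]

lemma ex_map_neg (Φ : A →+ (ℂ → ℂ)) (n : A) : ex (Φ n) * ex (Φ (-n)) = 1 := by
  rw [← ex_add, ← map_add, add_neg_cancel, map_zero, ex_zero]

/-- The group of small exponents. -/
def Lam (hF : F ≤ atTop) (hM : Tendsto M F atTop) (Φ : A →+ (ℂ → ℂ))
    (hΦ : ∀ n, Differentiable ℂ (Φ n)) (hΦ' : ∀ n, Small M F (deriv (Φ n))) : AddSubgroup A where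
  carrier := {n | Small M F (ex (Φ n))}
  zero_mem' := by
    change Small M F (ex (Φ 0))
    rw [map_zero, ex_zero]
    exact (smallRing M F hM).one_mem
  add_mem' {a b} ha hb := by
    change Small M F (ex (Φ (a + b)))
    rw [map_add, ex_add]
    exact Small.mul hM ha hb
  neg_mem' {a} ha := by
    change Small M F (ex (Φ (-a)))
    apply small_ex_of_mul hF hM (hΦ (-a)) (hΦ' (-a)) (a := ex (Φ a)) (b := 1) ha
    · intro h
      exact ex_ne (Φ a) 0 (congrFun h 0)
    · exact (smallRing M F hM).one_mem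
    · exact ex_map_neg Φ a

lemma mem_Lam {hF : F ≤ atTop} {hM : Tendsto M F atTop} {Φ : A →+ (ℂ → ℂ)}
    {hΦ : ∀ n, Differentiable ℂ (Φ n)} {hΦ' : ∀ n, Small M F (deriv (Φ n))} {n : A} :
    n ∈ Lam hF hM Φ hΦ hΦ' ↔ Small M F (ex (Φ n)) := Iff.rfl

/-- The twisted characters. -/
def eh (Φ : A →+ (ℂ → ℂ)) (l : A →+ ℤ) (τ : ℂˣ) : Multiplicative A →* (ℂ → ℂ) where
  toFun n := fun z => ((τ ^ (l n.toAdd) : ℂˣ) : ℂ) * ex (Φ n.toAdd) z
  map_one' := by
    funext z
    simp [ex]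
  map_mul' a b := by
    funext z
    simp only [toAdd_mul, map_add, zpow_add, Units.val_mul, ex_add, Pi.mul_apply]
    ring

/-- The twisted evaluation. -/
def ev (hM : Tendsto M F atTop) (Φ : A →+ (ℂ → ℂ)) (l : A →+ ℤ) (τ : ℂˣ) :
    AddMonoidAlgebra (smallRing M F hM) A →ₐ[smallRing M F hM] (ℂ → ℂ) :=
  AddMonoidAlgebra.lift (smallRing M F hM) (ℂ → ℂ) A (eh Φ l τ)

lemma ev_single (hM : Tendsto M F atTop) (Φ : A →+ (ℂ → ℂ)) (l : A →+ ℤ) (τ : ℂˣ) (n : A)
    (s : smallRing M F hM) (z : ℂ) :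
    ev hM Φ l τ (AddMonoidAlgebra.single n s) z =
      (s : ℂ → ℂ) z * (((τ ^ (l n) : ℂˣ) : ℂ) * ex (Φ n) z) := by
  unfold ev
  rw [AddMonoidAlgebra.lift_single]
  rfl

lemma ev_apply (hM : Tendsto M F atTop) (Φ : A →+ (ℂ → ℂ)) (l : A →+ ℤ) (τ : ℂˣ)
    (u : AddMonoidAlgebra (smallRing M F hM) A) :
    ev hM Φ l τ u = ∑ n ∈ u.coeff.support,
      (u.coeff n : ℂ → ℂ) * (fun z => ((τ ^ (l n) : ℂˣ) : ℂ) * ex (Φ n) z) := by
  unfold ev
  rw [AddMonoidAlgebra.lift_apply]
  rfl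

/-- Homogenization: a relation between exponentials with small coefficients stays true for the
twisted exponentials. -/
theorem homogenize (hF : F ≤ atTop) (hM : Tendsto M F atTop) (Φ : A →+ (ℂ → ℂ))
    (hΦ : ∀ n, Differentiable ℂ (Φ n)) (hΦ' : ∀ n, Small M F (deriv (Φ n))) (l : A →+ ℤ)
    (hl : ∀ n, Small M F (ex (Φ n)) → l n = 0)
    (u : AddMonoidAlgebra (smallRing M F hM) A) (hu : ev hM Φ l 1 u = 0) (τ : ℂˣ) :
    ev hM Φ l τ u = 0 := by
  classical
  set L := Lam hF hM Φ hΦ hΦ' with hL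
  set q : A → A ⧸ L := fun n => (n : A ⧸ L) with hq
  set σ : A ⧸ L → A := fun κ => Quotient.out κ with hσ
  have hqσ : ∀ κ, q (σ κ) = κ := fun κ => Quotient.out_eq' κ
  set s := u.coeff.support with hs
  have hmaps : ∀ n ∈ s, q n ∈ s.image q := fun n hn => Finset.mem_image_of_mem q hn
  set a : A ⧸ L → ℂ → ℂ := fun κ => ∑ n ∈ s with q n = κ, (u.coeff n : ℂ → ℂ) * ex (Φ (n - σ κ))
    with ha
  have hmem : ∀ n κ, q n = κ → n - σ κ ∈ L := by
    intro n κ h
    rw [← hqσ κ] at h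
    have h' : (σ κ : A ⧸ L) = (n : A ⧸ L) := h.symm
    rw [QuotientAddGroup.eq] at h'
    have e : n - σ κ = -σ κ + n := by abel
    rw [e]
    exact h'
  have hasmall : ∀ κ, Small M F (a κ) := by
    intro κ
    rw [ha]
    apply (smallRing M F hM).sum_mem
    intro n hn
    rw [Finset.mem_filter] at hn
    exact (smallRing M F hM).mul_mem (u.coeff n).2 (hmem n κ hn.2)
  have hterm : ∀ (τ : ℂˣ) (n : A) (κ : A ⧸ L), q n = κ →
      (u.coeff n : ℂ → ℂ) * (fun z => ((τ ^ (l n) : ℂˣ) : ℂ) * ex (Φ n) z) =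
      (fun _ => ((τ ^ (l (σ κ)) : ℂˣ) : ℂ)) *
        (((u.coeff n : ℂ → ℂ) * ex (Φ (n - σ κ))) * ex (Φ (σ κ))) := by
    intro τ n κ h
    have h1 : l n = l (σ κ) := by
      have := hl _ (hmem n κ h)
      rw [map_sub] at this
      omega
    have h2 : ex (Φ n) = ex (Φ (n - σ κ)) * ex (Φ (σ κ)) := by
      rw [← ex_add, ← map_add, sub_add_cancel]
    funext z
    simp only [Pi.mul_apply, h1, h2]
    ring
  have hev : ∀ τ : ℂˣ, ev hM Φ l τ u = ∑ κ ∈ s.image q,
      (fun _ => ((τ ^ (l (σ κ)) : ℂˣ) : ℂ)) * (a κ * ex (Φ (σ κ))) := by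
    intro τ
    rw [ev_apply, ← Finset.sum_fiberwise_of_maps_to hmaps]
    apply Finset.sum_congr rfl
    intro κ _
    rw [ha]
    simp only
    rw [Finset.sum_mul, Finset.mul_sum]
    apply Finset.sum_congr rfl
    intro n hn
    rw [Finset.mem_filter] at hn
    exact hterm τ n κ hn.2
  have h0 : ∀ κ ∈ s.image q, a κ = 0 := by
    apply borel hF hM (s.image q) a (fun κ => Φ (σ κ)) (fun κ _ => hasmall κ)
      (fun κ _ => hΦ _) (fun κ _ => hΦ' _)
    · intro κ _ κ' _ hne hsm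
      apply hne
      rw [← map_sub] at hsm
      have h3 : σ κ - σ κ' ∈ L := hsm
      rw [← hqσ κ, ← hqσ κ']
      apply Eq.symm
      change ((σ κ' : A) : A ⧸ L) = (σ κ : A ⧸ L)
      rw [QuotientAddGroup.eq]
      have e : -σ κ' + σ κ = σ κ - σ κ' := by abel
      rw [e]
      exact h3
    · rw [hev 1] at hu
      rw [← hu]
      apply Finset.sum_congr rfl
      intro κ _
      funext z
      simp
  rw [hev τ]
  apply Finset.sum_eq_zero
  intro κ hκ
  rw [h0 κ hκ, zero_mul, mul_zero]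

/-- A nonzero integer-valued functional vanishing on a pure proper subgroup. -/
lemma exists_functional [Module.Finite ℤ A] (L : AddSubgroup A) (hL : L ≠ ⊤)
    (hpure : ∀ (n : A) (k : ℕ), 0 < k → k • n ∈ L → n ∈ L) :
    ∃ l : A →+ ℤ, l ≠ 0 ∧ ∀ n ∈ L, l n = 0 := by
  classical
  set L' : Submodule ℤ A := AddSubgroup.toIntSubmodule L with hL'
  have htf : Module.IsTorsionFree ℤ (A ⧸ L') := by
    rw [Module.isTorsionFree_iff_smul_eq_zero]
    intro r m hrm
    by_contra hne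
    push Not at hne
    obtain ⟨hr, hm⟩ := hne
    apply hm
    obtain ⟨y, rfl⟩ := L'.mkQ_surjective m
    rw [← map_smul, Submodule.mkQ_apply, Submodule.Quotient.mk_eq_zero] at hrm
    rw [Submodule.mkQ_apply, Submodule.Quotient.mk_eq_zero]
    have h1 : r • y ∈ L := hrm
    apply hpure y r.natAbs (by omega)
    rcases Int.natAbs_eq r with h | h
    · rw [h, natCast_zsmul] at h1
      exact h1
    · rw [h, neg_smul, natCast_zsmul, neg_mem_iff] at h1
      exact h1
  have hfree : Module.Free ℤ (A ⧸ L') := Module.free_of_finite_type_torsion_free'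
  have hnt : Nontrivial (A ⧸ L') := by
    rw [Submodule.Quotient.nontrivial_iff]
    intro h
    apply hL
    rw [eq_top_iff]
    intro x _
    have : x ∈ L' := by rw [h]; trivial
    exact this
  let b := Module.Free.chooseBasis ℤ (A ⧸ L')
  obtain ⟨x, hx⟩ := exists_ne (0 : A ⧸ L')
  obtain ⟨i, hi⟩ : ∃ i, b.repr x i ≠ 0 := by
    by_contra hne
    push Not at hne
    apply hx
    apply b.repr.injective
    ext i
    simpa using hne i
  refine ⟨((b.coord i).comp L'.mkQ).toAddMonoidHom, ?_, ?_⟩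
  · intro h0
    obtain ⟨y, rfl⟩ := L'.mkQ_surjective x
    apply hi
    have := DFunLike.congr_fun h0 y
    simpa using this
  · intro n hn
    have : L'.mkQ n = 0 := by
      rw [Submodule.mkQ_apply, Submodule.Quotient.mk_eq_zero]
      exact hn
    change b.coord i (L'.mkQ n) = 0
    rw [this, map_zero]

end

end Pool.Agent.H26b
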