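import Pool.Agent.Lib.H26b.Fin

open Filter Topology Set
open scoped Real

namespace Pool.Agent.H26b

noncomputable section

lemma exists_ne_of_ne_zero {f : ℂ → ℂ} (h : f ≠ 0) : ∃ z, f z ≠ 0 := by
  by_contra hne
  push Not at hne
  exact h (funext hne)

lemma entire_mul_ne {f g : ℂ → ℂ} (hf : Differentiable ℂ f) (hg : Differentiable ℂ g)
    (hf0 : f ≠ 0) (hg0 : g ≠ 0) : f * g ≠ 0 := by
  intro h
  rcases entire_mul_eq_zero hf hg h with h | h
  · exact hf0 h
  · exact hg0 h

lemma ex_zsmul (g : ℂ → ℂ) (k : ℤ) (z : ℂ) : ex (k • g) z = ex g z ^ k := by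
  simp only [ex, Pi.smul_apply, zsmul_eq_mul]
  exact Complex.exp_int_mul _ _

lemma zsmul_diff {g : ℂ → ℂ} (hg : Differentiable ℂ g) (k : ℤ) : Differentiable ℂ (k • g) := by
  have : k • g = fun z => (k : ℂ) * g z := by funext z; simp
  rw [this]
  exact hg.const_mul _

/-- The functional identity has no solutions. -/
theorem no_solution {β γ : ℂ → ℂ} (hβ : Differentiable ℂ β) (hγ : Differentiable ℂ γ) (c₀ : ℂ)
    (hnc : deriv β ≠ 0 ∨ deriv γ ≠ 0) (hC1 : ex γ ≠ 1) (hB1 : ex β ≠ 1) (hBC : ex β ≠ ex γ)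
    (hR : ∀ z, ((ex β (z + c₀))⁻¹ - 1) * (ex γ z - 1) ^ 2 = ((ex γ (z + c₀))⁻¹ - 1) *
      ((ex γ z - ex γ z * (ex β z)⁻¹) * (ex γ z - 1) + deriv β z * ex β z * (ex γ z - 1) -
        deriv γ z * ex γ z * (ex β z - 1))) : False := by
  set βs : ℂ → ℂ := fun z => β (z + c₀) with hβs
  set γs : ℂ → ℂ := fun z => γ (z + c₀) with hγs
  have hβsd : Differentiable ℂ βs := by
    intro z
    exact (hβ (z + c₀)).comp z (differentiableAt_id.add_const c₀)
  have hγsd : Differentiable ℂ γs := by
    intro z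
    exact (hγ (z + c₀)).comp z (differentiableAt_id.add_const c₀)
  obtain ⟨m, n, s, t, hTw, hn⟩ := exists_tw hβ hγ hβsd hγsd hnc
  have hTI : ∀ z, TI (ex β z) (ex γ z) (ex βs z) (ex γs z) (deriv β z) (deriv γ z) m n s t :=
    fun z τ hτ => hTw.main hR τ hτ z
  -- nonvanishing functions
  have hone : Differentiable ℂ (1 : ℂ → ℂ) := differentiable_const 1
  have hC : ex γ - 1 ≠ 0 := sub_ne_zero.mpr hC1
  have hCd : Differentiable ℂ (ex γ - 1) := (ex_diff hγ).sub hone
  have hCs : ex γs - 1 ≠ 0 := by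
    intro h
    apply hC1
    funext z
    have := congrFun h (z - c₀)
    simp only [Pi.sub_apply, Pi.one_apply, Pi.zero_apply, sub_eq_zero] at this
    have e : ex γs (z - c₀) = ex γ z := by simp only [hγs, ex, sub_add_cancel]
    rw [e] at this
    exact this
  have hCsd : Differentiable ℂ (ex γs - 1) := (ex_diff hγsd).sub hone
  have hγ' : 0 < n → deriv γ ≠ 0 := fun h0 h => by
    have := hTw.const h
    omega
  have hγ'd : Differentiable ℂ (deriv γ) := entire_deriv hγ
  -- Step 1
  obtain ⟨k, hk, hnt⟩ : ∃ k : ℤ, (∀ z, ex β z = ex γ z ^ k) ∧ ¬ (n = 0 ∧ t = 0) := by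
    rcases hn.eq_or_lt with h0 | h0
    · -- `n = 0`
      subst h0
      by_cases ht : t = 0
      · exfalso
        subst ht
        -- the coefficient
        have hP : m ≠ 0 → deriv β * (ex γ - 1) - deriv γ * ex γ ≠ 0 := by
          intro hm h
          have hw : ex β * deriv (ex γ - 1) - deriv (ex β) * (ex γ - 1) = 0 := by
            have e1 : deriv (ex γ - 1) = deriv γ * ex γ := by
              rw [← deriv_ex hγ]
              funext z
              exact deriv_sub_const (f := ex γ) (1 : ℂ)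
            rw [e1, deriv_ex hβ]
            linear_combination (-ex β) * h
          obtain ⟨κ, hκ⟩ := wronskian_zero (ex_diff hβ) hCd
            (fun h => ex_ne β 0 (congrFun h 0)) hw
          have hlin := hTw.lin κ (fun z => by
            have := congrFun hκ z
            simpa using this)
          obtain ⟨z₁, hz₁⟩ := exists_ne_of_ne_zero hC
          simp only [Pi.sub_apply, Pi.one_apply] at hz₁
          have h1 := hlin 1 one_ne_zero z₁
          have h2 := hlin 2 two_ne_zero z₁
          simp only [zpow_zero, one_mul, one_zpow] at h1 h2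
          rw [h1] at h2 hz₁
          have h3 : (2 : ℂ) ^ m = 1 := by
            have h4 : κ * ex β z₁ * ((2 : ℂ) ^ m - 1) = 0 := by linear_combination -h2
            exact sub_eq_zero.mp ((mul_eq_zero.mp h4).resolve_left hz₁)
          have h4 : (2 : ℝ) ^ m = 1 := by
            have := congrArg norm h3
            rw [norm_zpow] at this
            simpa using this
          exact hm (zpow_right_injective₀ (a := (2 : ℝ)) (by norm_num) (by norm_num)
            (show (2 : ℝ) ^ m = 2 ^ (0 : ℤ) by rw [h4, zpow_zero]))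
        have hms : ¬ (m = 0 ∧ s = 0) := fun h => hTw.ne ⟨h.1, rfl, h.2, rfl⟩
        by_cases hm : m = 0
        · obtain ⟨z, hz⟩ := exists_ne_of_ne_zero (entire_mul_ne hCd hCsd hC hCs)
          simp only [Pi.mul_apply, Pi.sub_apply, Pi.one_apply] at hz
          exact case_zero (ex_ne _ _) (ex_ne _ _) (ex_ne _ _)
            (sub_ne_zero.mp (right_ne_zero_of_mul hz)) (sub_ne_zero.mp (left_ne_zero_of_mul hz))
            (fun h => absurd hm h) hms (hTI z)
        · have hPd : Differentiable ℂ (deriv β * (ex γ - 1) - deriv γ * ex γ) :=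
            ((entire_deriv hβ).mul hCd).sub (hγ'd.mul (ex_diff hγ))
          obtain ⟨z, hz⟩ := exists_ne_of_ne_zero (entire_mul_ne (hCd.mul hCsd) hPd
            (entire_mul_ne hCd hCsd hC hCs) (hP hm))
          simp only [Pi.mul_apply, Pi.sub_apply, Pi.one_apply] at hz
          have hz1 := left_ne_zero_of_mul hz
          exact case_zero (ex_ne _ _) (ex_ne _ _) (ex_ne _ _)
            (sub_ne_zero.mp (right_ne_zero_of_mul hz1)) (sub_ne_zero.mp (left_ne_zero_of_mul hz1))
            (fun _ => right_ne_zero_of_mul hz) hms (hTI z)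
      · -- `t ≠ 0`
        refine ⟨s / t, ?_, fun h => ht h.2⟩
        have hroot : ∀ z, ex γ z ≠ 1 → ex βs z = ex γs z ^ (s / t) := by
          intro z hz
          refine (root_lemma ht (ex_ne γs z) (fun τ hτ h => ?_)).2
          have h1 := hTI z τ hτ
          have h2 : τ ^ (-t) * (ex γs z)⁻¹ = 1 := by
            rw [zpow_neg, ← mul_inv, h, inv_one]
          rw [h2, sub_self, zero_mul, zpow_zero, one_mul] at h1
          have h3 := (mul_eq_zero.mp h1).resolve_right (pow_ne_zero _ (sub_ne_zero.mpr hz))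
          rw [zpow_neg, ← mul_inv, sub_eq_zero, inv_eq_one] at h3
          exact h3
        have hfun : (ex βs - ex ((s / t) • γs)) * (ex γ - 1) = 0 := by
          funext z
          simp only [Pi.mul_apply, Pi.sub_apply, Pi.one_apply, Pi.zero_apply, ex_zsmul]
          by_cases hz : ex γ z = 1
          · rw [hz, sub_self, mul_zero]
          · rw [hroot z hz, sub_self, zero_mul]
        have h4 := (entire_mul_eq_zero ((ex_diff hβsd).sub (ex_diff (zsmul_diff hγsd _))) hCd
          hfun).resolve_right hC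
        intro z
        have h5 := congrFun h4 (z - c₀)
        simp only [Pi.sub_apply, Pi.zero_apply, ex_zsmul, sub_eq_zero] at h5
        have e1 : ex βs (z - c₀) = ex β z := by simp only [hβs, ex, sub_add_cancel]
        have e2 : ex γs (z - c₀) = ex γ z := by simp only [hγs, ex, sub_add_cancel]
        rwa [e1, e2] at h5
    · -- `n > 0`
      refine ⟨m / n, ?_, fun h => by omega⟩
      have hroot : ∀ z, deriv γ z ≠ 0 → ex γs z ≠ 1 → ex β z = ex γ z ^ (m / n) := by
        intro z hz1 hz2
        exact (root_lemma (by omega) (ex_ne γ z) (fun τ hτ h =>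
          claimA hz1 (ex_ne _ _) hz2 (hTI z) hτ h)).2
      have hfun : (ex β - ex ((m / n) • γ)) * (deriv γ * (ex γs - 1)) = 0 := by
        funext z
        simp only [Pi.mul_apply, Pi.sub_apply, Pi.one_apply, Pi.zero_apply, ex_zsmul]
        by_cases hz1 : deriv γ z = 0
        · rw [hz1, zero_mul, mul_zero]
        · by_cases hz2 : ex γs z = 1
          · rw [hz2, sub_self, mul_zero, mul_zero]
          · rw [hroot z hz1 hz2, sub_self, zero_mul]
      have h4 := (entire_mul_eq_zero ((ex_diff hβ).sub (ex_diff (zsmul_diff hγ _)))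
        (hγ'd.mul hCsd) hfun).resolve_right (entire_mul_ne hγ'd hCsd (hγ' h0) hCs)
      intro z
      have h5 := congrFun h4 z
      simp only [Pi.sub_apply, Pi.zero_apply, ex_zsmul, sub_eq_zero] at h5
      exact h5
  -- Step 2
  have hk0 : k ≠ 0 := by
    rintro rfl
    apply hB1
    funext z
    rw [hk z, zpow_zero]
    rfl
  have hk1 : k ≠ 1 := by
    rintro rfl
    apply hBC
    funext z
    rw [hk z, zpow_one]
  have hks : ∀ z, ex βs z = ex γs z ^ k := fun z => hk (z + c₀)
  have hm := hTw.pow k hk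
  have hs := hTw.pows k hks
  have hp : ∀ z, deriv β z = k * deriv γ z := by
    intro z
    have e1 : ex β = ex (k • γ) := by
      funext w
      rw [ex_zsmul]; exact hk w
    have e2 := congrArg deriv e1
    rw [deriv_ex hβ, deriv_ex (zsmul_diff hγ k), ← e1] at e2
    have e3 := congrFun e2 z
    simp only [Pi.mul_apply] at e3
    have e4 := mul_right_cancel₀ (ex_ne β z) e3
    rw [e4]
    have e5 : k • γ = fun w => (k : ℂ) * γ w := by funext w; simp
    rw [e5]
    exact ((hγ z).hasDerivAt.const_mul (k : ℂ)).deriv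
  have hTR : ∀ z, TR (ex γ z) (ex γs z) (deriv γ z) k n t := by
    intro z τ hτ
    have h1 := hTI z τ hτ
    have hne : (τ ^ n * ex γ z) ^ k ≠ 0 :=
      zpow_ne_zero _ (mul_ne_zero (zpow_ne_zero _ hτ) (ex_ne _ _))
    have e1 : τ ^ (-s) * (ex βs z)⁻¹ = (τ ^ (-t) * (ex γs z)⁻¹) ^ k := by
      rw [hks z, mul_zpow, ← zpow_mul, inv_zpow, hs]
      congr 2
      ring
    have e2 : τ ^ m * ex β z = (τ ^ n * ex γ z) ^ k := by
      rw [hk z, mul_zpow, ← zpow_mul, hm, mul_comm k n]
    have e3 : τ ^ (n - m) * (ex γ z * (ex β z)⁻¹) =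
        τ ^ n * ex γ z * ((τ ^ n * ex γ z) ^ k)⁻¹ := by
      rw [← e2, zpow_sub₀ hτ, mul_inv, div_eq_mul_inv]
      ring
    rw [e1, e2, e3, hp z] at h1
    exact h1
  by_cases hn0 : 0 < n
  · obtain ⟨z, hz⟩ := exists_ne_of_ne_zero (entire_mul_ne (hCd.mul hCsd) hγ'd
      (entire_mul_ne hCd hCsd hC hCs) (hγ' hn0))
    simp only [Pi.mul_apply, Pi.sub_apply, Pi.one_apply] at hz
    have hz1 := left_ne_zero_of_mul hz
    exact TR_false (ex_ne _ _) (ex_ne _ _) (sub_ne_zero.mp (left_ne_zero_of_mul hz1))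
      (sub_ne_zero.mp (right_ne_zero_of_mul hz1)) hn (fun _ => right_ne_zero_of_mul hz) hnt hk0 hk1
      (hTR z)
  · obtain ⟨z, hz⟩ := exists_ne_of_ne_zero (entire_mul_ne hCd hCsd hC hCs)
    simp only [Pi.mul_apply, Pi.sub_apply, Pi.one_apply] at hz
    exact TR_false (ex_ne _ _) (ex_ne _ _) (sub_ne_zero.mp (left_ne_zero_of_mul hz))
      (sub_ne_zero.mp (right_ne_zero_of_mul hz)) hn (fun h => absurd h hn0) hnt hk0 hk1
      (hTR z)

end

end Pool.Agent.H26b
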