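import Pool.Agent.Lib.H26b.Main
import Pool.Agent.Lib.H26b.Defs

open Filter Topology Set
open scoped Real

namespace Pool.Agent.H26b

noncomputable section

/-- `f` has no poles. -/
lemma no_poles {f : ℂ → ℂ} (hf : Meromorphic f) (c : ℂ)
    (hinf : ShareInftyCM (deriv f) (shiftDiff c f)) (z : ℂ) : 0 ≤ meromorphicOrderAt f z := by
  have key : ∀ m : ℕ, ∀ z, meromorphicOrderAt f z ≠ ((-((m : ℤ) + 1) : ℤ) : WithTop ℤ) := by
    intro m
    induction m using Nat.strong_induction_on with
    | _ m ih =>
      intro z hz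
      set z' := z - c with hz'
      have h1 : meromorphicOrderAt (fun w => f (w + c)) z' =
          ((-((m : ℤ) + 1) : ℤ) : WithTop ℤ) := by
        rw [meromorphicOrderAt_fun_comp_add_const_eq_meromorphicOrderAt, hz', sub_add_cancel, hz]
      have hm1 : MeromorphicAt (fun w => f (w + c)) z' := by
        apply meromorphicAt_of_meromorphicOrderAt_ne_zero
        rw [h1]
        intro h
        have : (-((m : ℤ) + 1) : ℤ) = 0 := by exact_mod_cast h
        omega
      have hneg : meromorphicOrderAt (-f) z' = meromorphicOrderAt f z' :=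
        meromorphicOrderAt_neg.symm
      have hsd : shiftDiff c f = (fun w => f (w + c)) + (-f) := by
        funext w
        simp [shiftDiff, sub_eq_add_neg]
      have hsh := hinf z'
      rcases lt_or_ge (meromorphicOrderAt f z') 0 with ho | ho
      · -- `f` has a pole at `z'`
        obtain ⟨n, hn⟩ := WithTop.ne_top_iff_exists.mp ho.ne_top
        have hn0 : n < 0 := by
          rw [← hn] at ho
          exact_mod_cast ho
        obtain ⟨j, hj⟩ : ∃ j : ℕ, n = -((j : ℤ) + 1) := ⟨(-n - 1).toNat, by omega⟩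
        have hd : meromorphicOrderAt (deriv f) z' = ((n - 1 : ℤ) : WithTop ℤ) := by
          apply meromorphicOrderAt_deriv_eq_sub_one _ hn.symm
          exact_mod_cast hn0.ne
        have hmin : min (meromorphicOrderAt (fun w => f (w + c)) z')
            (meromorphicOrderAt (-f) z') ≤ meromorphicOrderAt (shiftDiff c f) z' := by
          rw [hsd]
          exact meromorphicOrderAt_add hm1 (hf z').neg
        rw [h1, hneg, ← hn] at hmin
        rw [hd] at hsh
        have h2 : min (0 : WithTop ℤ) ((n - 1 : ℤ) : WithTop ℤ) = ((n - 1 : ℤ) : WithTop ℤ) := by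
          apply min_eq_right
          exact_mod_cast (by omega : n - 1 ≤ 0)
        rw [h2] at hsh
        have h3 : meromorphicOrderAt (shiftDiff c f) z' = ((n - 1 : ℤ) : WithTop ℤ) := by
          rcases min_choice (0 : WithTop ℤ) (meromorphicOrderAt (shiftDiff c f) z') with h | h
          · rw [h] at hsh
            exfalso
            have : (n - 1 : ℤ) = 0 := by exact_mod_cast hsh
            omega
          · rw [h] at hsh
            exact hsh.symm
        rw [h3] at hmin
        have h4 : min (-((m : ℤ) + 1)) n ≤ n - 1 := by exact_mod_cast hmin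
        have h5 : j < m := by omega
        apply ih j h5 z'
        rw [← hn, hj]
      · -- `f` has no pole at `z'`
        have h2 : meromorphicOrderAt (shiftDiff c f) z' = ((-((m : ℤ) + 1) : ℤ) : WithTop ℤ) := by
          rw [hsd, meromorphicOrderAt_add_eq_left_of_lt (hf z').neg, h1]
          rw [h1, hneg]
          refine lt_of_lt_of_le ?_ ho
          exact_mod_cast (by omega : (-((m : ℤ) + 1)) < 0)
        have h3 : 0 ≤ meromorphicOrderAt (deriv f) z' := by
          obtain ⟨g, hg1, hg2⟩ := ((hf z').meromorphicOrderAt_nonneg_iff).mp ho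
          rw [meromorphicOrderAt_congr hg2.nhdsNE_deriv]
          exact hg1.deriv.meromorphicOrderAt_nonneg
        rw [h2, min_eq_left h3] at hsh
        rw [min_eq_right (by exact_mod_cast (by omega : (-((m : ℤ) + 1)) ≤ 0))] at hsh
        have : (0 : ℤ) = -((m : ℤ) + 1) := by exact_mod_cast hsh
        omega
  by_contra hneg
  rw [not_le] at hneg
  obtain ⟨n, hn⟩ := WithTop.ne_top_iff_exists.mp hneg.ne_top
  have hn0 : n < 0 := by
    rw [← hn] at hneg
    exact_mod_cast hneg
  apply key (-n - 1).toNat z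
  rw [← hn]
  have : (-(((-n - 1).toNat : ℤ) + 1) : ℤ) = n := by omega
  rw [this]

/-- A zero-free entire function has an entire logarithm. -/
lemma exists_log {u : ℂ → ℂ} (hu : Differentiable ℂ u) (h0 : ∀ z, u z ≠ 0) :
    ∃ g : ℂ → ℂ, Differentiable ℂ g ∧ ex g = u := by
  have hd : Differentiable ℂ (fun z => deriv u z / u z) :=
    fun z => ((entire_deriv hu) z).div (hu z) (h0 z)
  obtain ⟨G, hG⟩ := hd.isExactOn_univ
  have hG' : ∀ z, HasDerivAt G (deriv u z / u z) z := fun z => hG z (mem_univ z)
  have hGd : Differentiable ℂ G := fun z => (hG' z).differentiableAt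
  have hconst : ∀ z, u z * Complex.exp (-G z) = u 0 * Complex.exp (-G 0) := by
    intro z
    apply is_const_of_deriv_eq_zero (f := fun z => u z * Complex.exp (-G z))
    · exact hu.mul hGd.neg.cexp
    · intro w
      have h1 := (hu w).hasDerivAt.mul (hG' w).neg.cexp
      have h2 := h1.deriv
      have e : deriv (fun z => u z * Complex.exp (-G z)) w =
          deriv u w * Complex.exp (-G w) + u w * (Complex.exp (-G w) * -(deriv u w / u w)) := h2
      rw [e]
      have := h0 w
      field_simp
      ring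
  obtain ⟨a, ha⟩ : ∃ a, Complex.exp a = u 0 * Complex.exp (-G 0) :=
    ⟨Complex.log _, Complex.exp_log (mul_ne_zero (h0 0) (Complex.exp_ne_zero _))⟩
  refine ⟨fun z => G z + a, hGd.add_const a, ?_⟩
  funext z
  simp only [ex]
  rw [Complex.exp_add, ha, ← hconst z, mul_comm (Complex.exp (G z)), mul_assoc,
    ← Complex.exp_add, neg_add_cancel, Complex.exp_zero, mul_one]

lemma codiscrete_iff {p : ℂ → Prop} :
    (∀ᶠ z in codiscrete ℂ, p z) ↔ ∀ z, ∀ᶠ w in 𝓝[≠] z, p w := by
  rw [Filter.Eventually, mem_codiscrete]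
  simp only [disjoint_principal_right, compl_compl]
  rfl

lemma order_ne_top {P : ℂ → ℂ} (hP : Differentiable ℂ P) (hP0 : P ≠ 0) (z : ℂ) :
    meromorphicOrderAt P z ≠ ⊤ := by
  intro h
  rw [meromorphicOrderAt_eq_top_iff] at h
  apply hP0
  have h1 : AnalyticOnNhd ℂ P univ := fun w _ => hP.analyticAt w
  have h2 := h1.eqOn_zero_of_preconnected_of_frequently_eq_zero isPreconnected_univ (mem_univ z)
    h.frequently
  exact funext fun w => h2 (mem_univ w)

/-- Two entire functions with the same zeros. -/
lemma exists_unit {P Q : ℂ → ℂ} (hP : Differentiable ℂ P) (hQ : Differentiable ℂ Q)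
    (hP0 : P ≠ 0) (hPQ : ∀ z, meromorphicOrderAt P z = meromorphicOrderAt Q z) :
    ∃ g : ℂ → ℂ, Differentiable ℂ g ∧ P = ex g * Q := by
  have hQ0 : Q ≠ 0 := by
    rintro rfl
    apply order_ne_top hP hP0 0
    rw [hPQ 0, meromorphicOrderAt_eq_top_iff]
    exact Eventually.of_forall fun w => rfl
  have hmer : MeromorphicOn (P / Q) univ := fun z _ => (entire_mero hP z).div (entire_mero hQ z)
  set v := toMeromorphicNFOn (P / Q) univ with hv
  have hNF : MeromorphicNFOn v univ := meromorphicNFOn_toMeromorphicNFOn _ _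
  have hord : ∀ z, meromorphicOrderAt v z = 0 := by
    intro z
    rw [hv, meromorphicOrderAt_toMeromorphicNFOn hmer (mem_univ z),
      meromorphicOrderAt_div (entire_mero hP z) (entire_mero hQ z), hPQ z]
    obtain ⟨n, hn⟩ := WithTop.ne_top_iff_exists.mp (order_ne_top hQ hQ0 z)
    rw [← hn]
    exact_mod_cast sub_self n
  have han : ∀ z, AnalyticAt ℂ v z := fun z =>
    ((hNF (mem_univ z)).meromorphicOrderAt_nonneg_iff_analyticAt).mp (hord z).ge
  have hne : ∀ z, v z ≠ 0 := fun z =>
    ((hNF (mem_univ z)).meromorphicOrderAt_eq_zero_iff).mp (hord z)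
  have hvd : Differentiable ℂ v := fun z => (han z).differentiableAt
  obtain ⟨g, hg, hgv⟩ := exists_log hvd hne
  refine ⟨g, hg, ?_⟩
  rw [hgv]
  funext z
  have h1 : P =ᶠ[𝓝[≠] z] v * Q := by
    have h2 := hmer.toMeromorphicNFOn_eq_self_on_nhdsNE (mem_univ z)
    have h3 := codiscrete_iff.mp (entire_ne_codiscrete hQ hQ0) z
    filter_upwards [h2, h3] with w hw1 hw2
    rw [Pi.mul_apply, hv, hw1, Pi.div_apply]
    field_simp
  have h2 : P =ᶠ[𝓝 z] v * Q := by
    rwa [← ContinuousAt.eventuallyEq_nhds_iff_eventuallyEq_nhdsNE hP.continuous.continuousAt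
      (hvd.mul hQ).continuous.continuousAt]
  exact h2.eq_of_nhds

/-- The main theorem for entire functions. -/
theorem entire_case {f : ℂ → ℂ} (hf : Differentiable ℂ f) (c a₁ a₂ : ℂ) (ha : a₁ ≠ a₂)
    (hna : ¬ ∃ a b : ℂ, f = fun z => a * z + b)
    (h1 : ShareCM (deriv f) (shiftDiff c f) a₁) (h2 : ShareCM (deriv f) (shiftDiff c f) a₂) :
    deriv f = shiftDiff c f := by
  set g := deriv f with hg
  set h := shiftDiff c f with hh
  have hgd : Differentiable ℂ g := entire_deriv hf
  have hfs : Differentiable ℂ (fun z => f (z + c)) := fun z =>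
    (hf (z + c)).comp z (differentiableAt_id.add_const c)
  have hhd : Differentiable ℂ h := hfs.sub hf
  -- `g` is not constant
  have hgc : ∀ a, g ≠ fun _ => a := by
    intro a hga
    apply hna
    refine ⟨a, f 0, ?_⟩
    funext z
    have h3 : ∀ w, f w - a * w = f 0 - a * 0 := by
      intro w
      apply is_const_of_deriv_eq_zero (f := fun w => f w - a * w)
      · exact hf.sub (differentiable_id.const_mul a)
      · intro w
        have h4 := ((hf w).hasDerivAt.sub ((hasDerivAt_id w).const_mul a)).deriv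
        have h5 : deriv (fun w => f w - a * w) w = deriv f w - a * 1 := h4
        rw [h5]
        have h6 : deriv f w = a := congrFun hga w
        rw [h6]
        ring
    have := h3 z
    linear_combination this
  have hsub : ∀ a, g - (fun _ => a) ≠ 0 := by
    intro a h0
    apply hgc a
    exact sub_eq_zero.mp h0
  have hord : ∀ a, ShareCM g h a → ∀ z, meromorphicOrderAt (g - fun _ => a) z =
      meromorphicOrderAt (h - fun _ => a) z := by
    intro a hsh z
    have h3 := hsh z
    have h4 : 0 ≤ meromorphicOrderAt (fun w => g w - a) z :=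
      ((hgd.sub (differentiable_const a)).analyticAt z).meromorphicOrderAt_nonneg
    have h5 : 0 ≤ meromorphicOrderAt (fun w => h w - a) z :=
      ((hhd.sub (differentiable_const a)).analyticAt z).meromorphicOrderAt_nonneg
    rw [max_eq_right h4, max_eq_right h5] at h3
    exact h3
  obtain ⟨α₁, hα₁, hu₁⟩ := exists_unit (hgd.sub (differentiable_const a₁))
    (hhd.sub (differentiable_const a₁)) (hsub a₁) (hord a₁ h1)
  obtain ⟨α₂, hα₂, hu₂⟩ := exists_unit (hgd.sub (differentiable_const a₂))
    (hhd.sub (differentiable_const a₂)) (hsub a₂) (hord a₂ h2)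
  have e₁ : ∀ z, g z - a₁ = ex α₁ z * (h z - a₁) := fun z => congrFun hu₁ z
  have e₂ : ∀ z, g z - a₂ = ex α₂ z * (h z - a₂) := fun z => congrFun hu₂ z
  have hd0 : a₂ - a₁ ≠ 0 := sub_ne_zero.mpr (Ne.symm ha)
  -- the exponents
  set β : ℂ → ℂ := fun z => -α₂ z with hβ
  set γ : ℂ → ℂ := fun z => α₁ z - α₂ z with hγ
  have hβd : Differentiable ℂ β := hα₂.neg
  have hγd : Differentiable ℂ γ := hα₁.sub hα₂
  have hB : ∀ z, ex β z = (ex α₂ z)⁻¹ := fun z => by simp only [ex, hβ, Complex.exp_neg]
  have hC : ∀ z, ex γ z = ex α₁ z * (ex α₂ z)⁻¹ := fun z => by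
    simp only [ex, hγ, Complex.exp_sub, div_eq_mul_inv]
  set H : ℂ → ℂ := fun z => (h z - a₁) / (a₂ - a₁) with hH
  have hHC : ∀ z, H z * (ex γ z - 1) = ex β z - 1 := by
    intro z
    rw [hB, hC]
    simp only [hH]
    have hne := ex_ne α₂ z
    field_simp
    linear_combination (e₂ z) - (e₁ z)
  by_cases hC1 : ex γ = 1
  · -- then `g = h`
    funext z
    have h3 := hHC z
    rw [hC1, Pi.one_apply, sub_self, mul_zero] at h3
    have h4 : ex β z = 1 := (sub_eq_zero.mp h3.symm)
    rw [hB, inv_eq_one] at h4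
    have h5 := e₂ z
    rw [h4, one_mul] at h5
    linear_combination h5
  exfalso
  have hCd : Differentiable ℂ (ex γ - 1) := (ex_diff hγd).sub (differentiable_const 1)
  have hHd : Differentiable ℂ H := (hhd.sub (differentiable_const a₁)).div_const _
  have hC0 : ex γ - 1 ≠ 0 := sub_ne_zero.mpr hC1
  have hgh : ∀ a, h = (fun _ => a) → ShareCM g h a → False := by
    intro a hha hsh
    have h3 := hord a hsh 0
    apply order_ne_top (hgd.sub (differentiable_const a)) (hsub a) 0
    rw [h3, meromorphicOrderAt_eq_top_iff, hha]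
    exact Eventually.of_forall fun w => by simp
  have hB1 : ex β ≠ 1 := by
    intro hb
    have h3 : H * (ex γ - 1) = 0 := by
      funext z
      have := hHC z
      rw [hb, Pi.one_apply, sub_self] at this
      exact this
    have h4 := (entire_mul_eq_zero hHd hCd h3).resolve_right hC0
    apply hgh a₁ _ h1
    funext z
    have h5 := congrFun h4 z
    simp only [hH, Pi.zero_apply, div_eq_zero_iff] at h5
    exact sub_eq_zero.mp (h5.resolve_right hd0)
  have hBC : ex β ≠ ex γ := by
    intro hb
    have h3 : (H - 1) * (ex γ - 1) = 0 := by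
      funext z
      have := hHC z
      rw [hb] at this
      simp only [Pi.mul_apply, Pi.sub_apply, Pi.one_apply, Pi.zero_apply]
      linear_combination this
    have h4 := (entire_mul_eq_zero (hHd.sub (differentiable_const 1)) hCd h3).resolve_right hC0
    apply hgh a₂ _ h2
    funext z
    have h5 := congrFun h4 z
    simp only [hH, Pi.sub_apply, Pi.one_apply, Pi.zero_apply, sub_eq_zero,
      div_eq_one_iff_eq hd0] at h5
    linear_combination h5
  have hnc : deriv β ≠ 0 ∨ deriv γ ≠ 0 := by
    by_contra hcon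
    push Not at hcon
    obtain ⟨hb, hc⟩ := hcon
    have hb' := const_of_deriv hβd hb
    have hc' := const_of_deriv hγd hc
    have hexb : ∀ z, ex β z = ex β 0 := fun z => by
      simp only [ex]; rw [congrFun hb' z]
    have hexc : ∀ z, ex γ z = ex γ 0 := fun z => by
      simp only [ex]; rw [congrFun hc' z]
    have hc1 : ex γ 0 - 1 ≠ 0 := by
      intro h0
      apply hC1
      funext z
      rw [hexc z]
      exact sub_eq_zero.mp h0
    have hHc : ∀ z, H z = (ex β 0 - 1) / (ex γ 0 - 1) := by
      intro z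
      have := hHC z
      rw [hexb z, hexc z] at this
      rw [eq_div_iff hc1]
      exact this
    have hα₂c : ∀ z, ex α₂ z = ex α₂ 0 := by
      intro z
      have h3 := hB z
      rw [hexb z, hB 0] at h3
      exact (inv_injective h3).symm
    apply hgc (ex α₂ 0 * (a₁ + (a₂ - a₁) * ((ex β 0 - 1) / (ex γ 0 - 1)) - a₂) + a₂)
    funext z
    have h3 := e₂ z
    rw [hα₂c z] at h3
    have h4 := hHc z
    simp only [hH] at h4
    rw [div_eq_iff hd0] at h4
    linear_combination h3 + ex α₂ 0 * h4
  -- the derivative relation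
  have hrel : ∀ z, g (z + c) - g z = deriv h z := by
    intro z
    have h3 : deriv h z = deriv (fun z => f (z + c)) z - deriv f z := by
      apply deriv_fun_sub (hfs z) (hf z)
    rw [h3, deriv_comp_add_const]
  have hHder : ∀ z, deriv H z = deriv h z / (a₂ - a₁) := by
    intro z
    have h3 := ((hhd z).hasDerivAt.sub_const a₁).div_const (a₂ - a₁)
    exact h3.deriv
  have hder : ∀ z, deriv H z * (ex γ z - 1) + H z * (deriv γ z * ex γ z) = deriv β z * ex β z := by
    intro z
    have h3 : (fun z => H z * (ex γ z - 1)) = fun z => ex β z - 1 := funext hHC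
    have h4 := ((hHd z).hasDerivAt.mul (((ex_diff hγd) z).hasDerivAt.sub_const 1)).deriv
    have h5 := (((ex_diff hβd) z).hasDerivAt.sub_const 1).deriv
    have h6 : deriv (fun z => H z * (ex γ z - 1)) z = deriv H z * (ex γ z - 1) +
      H z * deriv (ex γ) z := h4
    have h7 : deriv (fun z => ex β z - 1) z = deriv (ex β) z := h5
    rw [h3, h7] at h6
    rw [deriv_ex hβd, deriv_ex hγd] at h6
    simp only [Pi.mul_apply] at h6
    exact h6.symm
  -- `G = (C / B) H`
  set G : ℂ → ℂ := fun z => (g z - a₁) / (a₂ - a₁) with hG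
  have hGH : ∀ z, G z = ex γ z * (ex β z)⁻¹ * H z := by
    intro z
    simp only [hG, hH]
    rw [e₁ z, hB z, hC z]
    have := ex_ne α₂ z
    field_simp
  have hGrel : ∀ z, G (z + c) - G z = deriv H z := by
    intro z
    rw [hHder z, ← hrel z]
    simp only [hG]
    ring
  have hGs : ∀ z, G (z + c) * ((ex γ (z + c))⁻¹ - 1) = (ex β (z + c))⁻¹ - 1 := by
    intro z
    rw [hGH (z + c)]
    have h3 := hHC (z + c)
    have h4 := ex_ne γ (z + c)
    have h5 := ex_ne β (z + c)
    field_simp
    linear_combination -h3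
  apply no_solution hβd hγd c hnc hC1 hB1 hBC
  intro z
  have k1 := hGs z
  have k2 := hGrel z
  have k3 := hGH z
  have k4 := hder z
  have k5 := hHC z
  have hb := ex_ne β z
  set B := ex β z
  set C := ex γ z
  set Cs := (ex γ (z + c))⁻¹
  set Bs := (ex β (z + c))⁻¹
  have k6 : B * B⁻¹ = 1 := mul_inv_cancel₀ hb
  have k7 : G z * (C - 1) = C * B⁻¹ * (B - 1) := by
    rw [k3]; linear_combination (C * B⁻¹) * k5
  have k8 : C * B⁻¹ * (B - 1) = C - C * B⁻¹ := by linear_combination C * k6
  rw [k8] at k7
  linear_combination (-(C - 1) ^ 2) * k1 + ((Cs - 1) * (C - 1) ^ 2) * k2 +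
    ((Cs - 1) * (C - 1)) * k7 + ((Cs - 1) * (C - 1)) * k4 - ((Cs - 1) * deriv γ z * C) * k5

end

end Pool.Agent.H26b
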