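import Pool.Agent.Lib.H26b.Ent

open Filter Topology Set Metric Asymptotics
open scoped Real

namespace Pool.Agent.H26b

noncomputable section

lemma entire_deriv {f : ℂ → ℂ} (hf : Differentiable ℂ f) : Differentiable ℂ (deriv f) :=
  fun z => ((hf.analyticAt z).deriv).differentiableAt

lemma entire_iter {f : ℂ → ℂ} (hf : Differentiable ℂ f) (k : ℕ) :
    Differentiable ℂ (iteratedDeriv k f) := by
  induction k generalizing f with
  | zero => simpa using hf
  | succ k ih => rw [iteratedDeriv_succ']; exact ih (entire_deriv hf)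

lemma entire_ne_codiscrete {f : ℂ → ℂ} (hf : Differentiable ℂ f) (hf0 : f ≠ 0) :
    ∀ᶠ z in codiscrete ℂ, f z ≠ 0 := by
  have h1 : AnalyticOnNhd ℂ f univ := fun z _ => hf.analyticAt z
  rcases h1.eqOn_zero_or_eventually_ne_zero_of_preconnected isPreconnected_univ with h | h
  · exact absurd (funext fun z => h (mem_univ z)) hf0
  · exact h

lemma entire_mul_eq_zero {f g : ℂ → ℂ} (hf : Differentiable ℂ f) (hg : Differentiable ℂ g)
    (h : f * g = 0) : f = 0 ∨ g = 0 := by
  have h1 : AnalyticOnNhd ℂ f univ := fun z _ => hf.analyticAt z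
  have h2 : AnalyticOnNhd ℂ g univ := fun z _ => hg.analyticAt z
  rcases h1.eq_zero_or_eq_zero_of_mul_eq_zero h2 (fun z _ => congrFun h z)
    isPreconnected_univ with h | h
  · left; exact funext fun z => h z (mem_univ z)
  · right; exact funext fun z => h z (mem_univ z)

/-- `φ` is entire and the proximity functions of all its derivatives are `o(M)` along `F`. -/
def Small (M : ℝ → ℝ) (F : Filter ℝ) (φ : ℂ → ℂ) : Prop :=
  Differentiable ℂ φ ∧ ∀ k, (fun r => mm (iteratedDeriv k φ) r) =o[F] M

variable {M : ℝ → ℝ} {F : Filter ℝ}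

lemma Small.diff {φ : ℂ → ℂ} (h : Small M F φ) : Differentiable ℂ φ := h.1

lemma Small.mm0 {φ : ℂ → ℂ} (h : Small M F φ) : (fun r => mm φ r) =o[F] M := by
  simpa using h.2 0

lemma Small.der {φ : ℂ → ℂ} (h : Small M F φ) : Small M F (deriv φ) :=
  ⟨entire_deriv h.1, fun k => by
    have := h.2 (k + 1)
    rwa [iteratedDeriv_succ'] at this⟩

lemma small_of_deriv {φ : ℂ → ℂ} (h1 : Differentiable ℂ φ) (h2 : (fun r => mm φ r) =o[F] M)
    (h3 : Small M F (deriv φ)) : Small M F φ := by
  refine ⟨h1, fun k => ?_⟩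
  cases k with
  | zero => simpa using h2
  | succ k => rw [iteratedDeriv_succ']; exact h3.2 k

lemma const_isLittleO (hM : Tendsto M F atTop) (c : ℝ) : (fun _ => c) =o[F] M := by
  rw [isLittleO_const_left]
  right
  exact tendsto_norm_atTop_atTop.comp hM

lemma isLittleO_of_le {u v : ℝ → ℝ} (hu : ∀ r, 0 ≤ u r) (h : ∀ᶠ r in F, u r ≤ v r)
    (hv : v =o[F] M) : u =o[F] M := by
  apply IsBigO.trans_isLittleO _ hv
  apply IsBigO.of_bound 1
  filter_upwards [h] with r hr
  rw [Real.norm_of_nonneg (hu r), one_mul]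
  exact hr.trans (le_abs_self _)

lemma deriv_add_entire {f g : ℂ → ℂ} (hf : Differentiable ℂ f) (hg : Differentiable ℂ g) :
    deriv (f + g) = deriv f + deriv g := by
  funext z
  exact deriv_add hf.differentiableAt hg.differentiableAt

lemma deriv_mul_entire {f g : ℂ → ℂ} (hf : Differentiable ℂ f) (hg : Differentiable ℂ g) :
    deriv (f * g) = deriv f * g + f * deriv g := by
  funext z
  exact deriv_mul hf.differentiableAt hg.differentiableAt

lemma Small.add (hM : Tendsto M F atTop) {φ ψ : ℂ → ℂ} (h1 : Small M F φ) (h2 : Small M F ψ) :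
    Small M F (φ + ψ) := by
  refine ⟨h1.1.add h2.1, fun k => ?_⟩
  induction k generalizing φ ψ with
  | zero =>
    simp only [iteratedDeriv_zero]
    refine isLittleO_of_le (fun r => mm_nonneg _ r)
      (Eventually.of_forall fun r => mm_add_le h1.1 h2.1 r) ?_
    exact (h1.mm0.add h2.mm0).add (const_isLittleO hM _)
  | succ k ih =>
    rw [iteratedDeriv_succ', deriv_add_entire h1.1 h2.1]
    exact ih h1.der h2.der

lemma Small.mul (hM : Tendsto M F atTop) {φ ψ : ℂ → ℂ} (h1 : Small M F φ) (h2 : Small M F ψ) :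
    Small M F (φ * ψ) := by
  refine ⟨h1.1.mul h2.1, fun k => ?_⟩
  have key : ∀ k, ∀ φ ψ : ℂ → ℂ, Small M F φ → Small M F ψ →
      ∀ j, j ≤ k → (fun r => mm (iteratedDeriv j (φ * ψ)) r) =o[F] M := by
    intro k
    induction k with
    | zero =>
      intro φ ψ h1 h2 j hj
      obtain rfl : j = 0 := by omega
      simp only [iteratedDeriv_zero]
      refine isLittleO_of_le (fun r => mm_nonneg _ r)
        (Eventually.of_forall fun r => mm_mul_le h1.1 h2.1 r) ?_
      exact h1.mm0.add h2.mm0
    | succ k ih =>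
      intro φ ψ h1 h2 j hj
      cases j with
      | zero => exact ih φ ψ h1 h2 0 (by omega)
      | succ j =>
        rw [iteratedDeriv_succ', deriv_mul_entire h1.1 h2.1]
        have e : iteratedDeriv j (deriv φ * ψ + φ * deriv ψ) =
            iteratedDeriv j (deriv φ * ψ) + iteratedDeriv j (φ * deriv ψ) := by
          funext z
          rw [Pi.add_apply]
          apply iteratedDeriv_add
          · exact (((entire_deriv h1.1).mul h2.1).contDiff).contDiffAt
          · exact ((h1.1.mul (entire_deriv h2.1)).contDiff).contDiffAt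
        rw [e]
        refine isLittleO_of_le (fun r => mm_nonneg _ r)
          (Eventually.of_forall fun r => mm_add_le
            (entire_iter ((entire_deriv h1.1).mul h2.1) j)
            (entire_iter (h1.1.mul (entire_deriv h2.1)) j) r) ?_
        exact ((ih _ _ h1.der h2 j (by omega)).add (ih _ _ h1 h2.der j (by omega))).add
          (const_isLittleO hM _)
  exact key k φ ψ h1 h2 k le_rfl

lemma Small.const (hM : Tendsto M F atTop) (c : ℂ) : Small M F (fun _ => c) := by
  refine ⟨differentiable_const c, fun k => ?_⟩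
  have : iteratedDeriv k (fun _ : ℂ => c) = fun _ => if k = 0 then c else 0 := by
    funext z; exact iteratedDeriv_const
  rw [this]
  refine isLittleO_of_le (fun r => mm_nonneg _ r) (Eventually.of_forall fun r => ?_)
    (const_isLittleO hM (Real.posLog ‖if k = 0 then c else 0‖))
  rw [mm_const]

/-- The ring of small entire functions. -/
def smallRing (M : ℝ → ℝ) (F : Filter ℝ) (hM : Tendsto M F atTop) : Subring (ℂ → ℂ) where
  carrier := {φ | Small M F φ}
  mul_mem' h1 h2 := Small.mul hM h1 h2
  one_mem' := Small.const hM 1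
  add_mem' h1 h2 := Small.add hM h1 h2
  zero_mem' := Small.const hM 0
  neg_mem' {φ} h := by
    have := Small.mul hM (Small.const hM (-1)) h
    have e : (fun _ : ℂ => (-1 : ℂ)) * φ = -φ := by funext z; simp
    rwa [e] at this

lemma mem_smallRing (hM : Tendsto M F atTop) {φ : ℂ → ℂ} : φ ∈ smallRing M F hM ↔ Small M F φ :=
  Iff.rfl

/-- The exponential of `g`. -/
def ex (g : ℂ → ℂ) : ℂ → ℂ := fun z => Complex.exp (g z)

lemma ex_diff {g : ℂ → ℂ} (hg : Differentiable ℂ g) : Differentiable ℂ (ex g) := hg.cexp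

lemma deriv_ex {g : ℂ → ℂ} (hg : Differentiable ℂ g) : deriv (ex g) = deriv g * ex g := by
  funext z
  have := (hg z).hasDerivAt.cexp
  rw [Pi.mul_apply, mul_comm]
  exact this.deriv

lemma ex_ne (g : ℂ → ℂ) (z : ℂ) : ex g z ≠ 0 := Complex.exp_ne_zero _

lemma ex_add (g h : ℂ → ℂ) : ex (g + h) = ex g * ex h := by
  funext z; exact Complex.exp_add _ _

lemma ex_zero : ex 0 = 1 := by
  funext z; simp [ex]

/-- If `g'` is small and `m(r, e^g) = o(M)` then `e^g` is small. -/
lemma small_ex (hM : Tendsto M F atTop) {g : ℂ → ℂ} (hg : Differentiable ℂ g)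
    (hg' : Small M F (deriv g)) (h : (fun r => mm (ex g) r) =o[F] M) : Small M F (ex g) := by
  have key : ∀ k, ∀ a : ℂ → ℂ, Small M F a →
      (fun r => mm (iteratedDeriv k (a * ex g)) r) =o[F] M := by
    intro k
    induction k with
    | zero =>
      intro a ha
      simp only [iteratedDeriv_zero]
      refine isLittleO_of_le (fun r => mm_nonneg _ r)
        (Eventually.of_forall fun r => mm_mul_le ha.1 (ex_diff hg) r) ?_
      exact ha.mm0.add h
    | succ k ih =>
      intro a ha
      rw [iteratedDeriv_succ', deriv_mul_entire ha.1 (ex_diff hg), deriv_ex hg]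
      have e : deriv a * ex g + a * (deriv g * ex g) = (deriv a + a * deriv g) * ex g := by ring
      rw [e]
      exact ih _ (ha.der.add hM (ha.mul hM hg'))
  refine ⟨ex_diff hg, fun k => ?_⟩
  have := key k (fun _ => 1) (Small.const hM 1)
  have e : (fun _ : ℂ => (1 : ℂ)) * ex g = ex g := by funext z; simp
  rwa [e] at this

/-- If `a e^g = b` with `a ≠ 0`, `b` and `g'` small, then `e^g` is small. -/
lemma small_ex_of_mul (hF : F ≤ atTop) (hM : Tendsto M F atTop) {g a b : ℂ → ℂ}
    (hg : Differentiable ℂ g) (hg' : Small M F (deriv g)) (ha : Small M F a) (ha0 : a ≠ 0)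
    (hb : Small M F b) (h : a * ex g = b) : Small M F (ex g) := by
  apply small_ex hM hg hg'
  obtain ⟨C, hC⟩ := mm_inv_le ha.1
  have h1 : ∀ r, 1 ≤ r → mm (ex g) r ≤ mm b r + (mm a r + C) := by
    intro r hr
    have e1 : mm (ex g) r = mm (b * a⁻¹) r := by
      apply ValueDistribution.proximity_congr_codiscrete _ (by linarith)
      filter_upwards [entire_ne_codiscrete ha.1 ha0] with z hz
      rw [← h, Pi.mul_apply, Pi.mul_apply, Pi.inv_apply]
      field_simp
    have e2 := ValueDistribution.proximity_mul_top_le (entire_mero hb.1) (entire_mero ha.1).inv r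
    rw [e1]
    refine e2.trans ?_
    change mm b r + mm a⁻¹ r ≤ _
    linarith [hC r hr]
  refine isLittleO_of_le (fun r => mm_nonneg _ r) (v := fun r => mm b r + (mm a r + C)) ?_ ?_
  · filter_upwards [hF (eventually_ge_atTop 1)] with r hr
    exact h1 r hr
  · exact hb.mm0.add (ha.mm0.add (const_isLittleO hM C))

end

end Pool.Agent.H26b
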