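import Pool.Agent.Lib.H26b.Growth

open Filter Topology Set Metric Asymptotics
open scoped Real

namespace Pool.Agent.H26b

noncomputable section

variable {ι : Type*} [Fintype ι]

/-- Integer combinations of the exponents. -/
def Phi (φ : ι → ℂ → ℂ) : (ι → ℤ) →+ (ℂ → ℂ) where
  toFun n := ∑ i, n i • φ i
  map_zero' := by simp
  map_add' a b := by simp [add_smul, Finset.sum_add_distrib]

lemma Phi_apply (φ : ι → ℂ → ℂ) (n : ι → ℤ) : Phi φ n = ∑ i, n i • φ i := rfl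

lemma hasDerivAt_Phi {φ : ι → ℂ → ℂ} (hφ : ∀ i, Differentiable ℂ (φ i)) (n : ι → ℤ) (z : ℂ) :
    HasDerivAt (Phi φ n) ((∑ i, n i • deriv (φ i)) z) z := by
  rw [Phi_apply, Finset.sum_apply]
  apply HasDerivAt.sum
  intro i _
  have h := ((hφ i z).hasDerivAt).const_mul (n i : ℂ)
  have e1 : (n i • φ i) = fun w => (n i : ℂ) * φ i w := by
    funext w; simp
  rw [e1, Pi.smul_apply, zsmul_eq_mul]
  exact h

lemma Phi_diff {φ : ι → ℂ → ℂ} (hφ : ∀ i, Differentiable ℂ (φ i)) (n : ι → ℤ) :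
    Differentiable ℂ (Phi φ n) := fun z => (hasDerivAt_Phi hφ n z).differentiableAt

lemma Phi_small {φ : ι → ℂ → ℂ} (hφ : ∀ i, Differentiable ℂ (φ i)) {i₀ : ι}
    (hi₀ : deriv (φ i₀) ≠ 0) (n : ι → ℤ) : Small (MM φ) (FF φ) (deriv (Phi φ n)) := by
  have e : deriv (Phi φ n) = ∑ i, n i • deriv (φ i) :=
    funext fun z => (hasDerivAt_Phi hφ n z).deriv
  rw [e]
  apply (smallRing (MM φ) (FF φ) (MM_tendsto_FF hφ hi₀)).sum_mem
  intro i _
  exact (smallRing (MM φ) (FF φ) (MM_tendsto_FF hφ hi₀)).zsmul_mem (small_deriv hφ hi₀ i) _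

lemma ex_nsmul (g : ℂ → ℂ) (k : ℕ) : ex (k • g) = ex g ^ k := by
  funext z
  simp only [ex, Pi.smul_apply, Pi.pow_apply, nsmul_eq_mul]
  rw [Complex.exp_nat_mul]

lemma Phi_pure {φ : ι → ℂ → ℂ} (hφ : ∀ i, Differentiable ℂ (φ i)) {i₀ : ι}
    (hi₀ : deriv (φ i₀) ≠ 0) (n : ι → ℤ) (k : ℕ) (hk : 0 < k)
    (h : Small (MM φ) (FF φ) (ex (Phi φ (k • n)))) : Small (MM φ) (FF φ) (ex (Phi φ n)) := by
  apply small_ex (MM_tendsto_FF hφ hi₀) (Phi_diff hφ n) (Phi_small hφ hi₀ n)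
  rw [map_nsmul, ex_nsmul] at h
  have h1 := h.mm0
  have hk' : (k : ℝ) ≠ 0 := by exact_mod_cast hk.ne'
  have e : (fun r => mm (ex (Phi φ n)) r) =
      fun r => (k : ℝ)⁻¹ * mm (ex (Phi φ n) ^ k) r := by
    funext r
    rw [mm_pow]
    field_simp
  rw [e]
  exact h1.const_mul_left _

/-- There is a nonzero functional vanishing on the small exponents. -/
theorem exists_l [DecidableEq ι] {φ : ι → ℂ → ℂ} (hφ : ∀ i, Differentiable ℂ (φ i)) {i₀ : ι}
    (hi₀ : deriv (φ i₀) ≠ 0) :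
    ∃ l : (ι → ℤ) →+ ℤ, l ≠ 0 ∧ ∀ n, Small (MM φ) (FF φ) (ex (Phi φ n)) → l n = 0 := by
  have hM := MM_tendsto_FF hφ hi₀
  obtain ⟨l, hl0, hl⟩ := exists_functional (Lam (FF_le φ) hM (Phi φ) (Phi_diff hφ)
    (Phi_small hφ hi₀)) (by
      intro htop
      obtain ⟨i, hi⟩ := exists_not_small hφ hi₀
      apply hi
      have h1 : (Pi.single i 1 : ι → ℤ) ∈ Lam (FF_le φ) hM (Phi φ) (Phi_diff hφ)
          (Phi_small hφ hi₀) := by rw [htop]; trivial
      rw [mem_Lam] at h1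
      have e : Phi φ (Pi.single i 1) = φ i := by
        rw [Phi_apply, Finset.sum_eq_single i]
        · simp
        · intro j _ hj
          rw [Pi.single_eq_of_ne hj, zero_smul]
        · intro h; exact absurd (Finset.mem_univ i) h
      rwa [e] at h1)
    (fun n k hk h => Phi_pure hφ hi₀ n k hk h)
  exact ⟨l, hl0, fun n hn => hl n hn⟩

/-- The properties of the twist. -/
structure Tw (β γ βs γs : ℂ → ℂ) (m n s t : ℤ) : Prop where
  main : (∀ z, ((ex βs z)⁻¹ - 1) * (ex γ z - 1) ^ 2 = ((ex γs z)⁻¹ - 1) *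
      ((ex γ z - ex γ z * (ex β z)⁻¹) * (ex γ z - 1) + deriv β z * ex β z * (ex γ z - 1) -
        deriv γ z * ex γ z * (ex β z - 1))) →
    ∀ τ : ℂ, τ ≠ 0 → ∀ z, (τ ^ (-s) * (ex βs z)⁻¹ - 1) * (τ ^ n * ex γ z - 1) ^ 2 =
      (τ ^ (-t) * (ex γs z)⁻¹ - 1) *
      ((τ ^ n * ex γ z - τ ^ (n - m) * (ex γ z * (ex β z)⁻¹)) * (τ ^ n * ex γ z - 1) +
        deriv β z * (τ ^ m * ex β z) * (τ ^ n * ex γ z - 1) -
        deriv γ z * (τ ^ n * ex γ z) * (τ ^ m * ex β z - 1))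
  lin : ∀ κ : ℂ, (∀ z, ex γ z - 1 = κ * ex β z) →
    ∀ τ : ℂ, τ ≠ 0 → ∀ z, τ ^ n * ex γ z - 1 = κ * (τ ^ m * ex β z)
  const : deriv γ = 0 → n = 0
  pow : ∀ k : ℤ, (∀ z, ex β z = ex γ z ^ k) → m = k * n
  pows : ∀ k : ℤ, (∀ z, ex βs z = ex γs z ^ k) → s = k * t
  ne : ¬ (m = 0 ∧ n = 0 ∧ s = 0 ∧ t = 0)

lemma const_of_deriv {g : ℂ → ℂ} (hg : Differentiable ℂ g) (h : deriv g = 0) :
    g = fun _ => g 0 := by
  funext z
  exact is_const_of_deriv_eq_zero hg (fun w => congrFun h w) z 0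

theorem tw_of_l {β γ βs γs : ℂ → ℂ} (hβ : Differentiable ℂ β) (hγ : Differentiable ℂ γ)
    (hβs : Differentiable ℂ βs) (hγs : Differentiable ℂ γs)
    {i₀ : Fin 4} (hi₀ : deriv (![β, γ, βs, γs] i₀) ≠ 0) (l : (Fin 4 → ℤ) →+ ℤ) (hl0 : l ≠ 0)
    (hl : ∀ n, Small (MM ![β, γ, βs, γs]) (FF ![β, γ, βs, γs]) (ex (Phi ![β, γ, βs, γs] n)) →
      l n = 0) :
    Tw β γ βs γs (l (Pi.single 0 1)) (l (Pi.single 1 1)) (l (Pi.single 2 1))
      (l (Pi.single 3 1)) := by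
  set φ : Fin 4 → ℂ → ℂ := ![β, γ, βs, γs] with hφdef
  have hφ : ∀ i, Differentiable ℂ (φ i) := by
    intro i
    fin_cases i
    · exact hβ
    · exact hγ
    · exact hβs
    · exact hγs
  have hM := MM_tendsto_FF hφ hi₀
  have hF := FF_le φ
  have e0 : Phi φ (Pi.single 0 1) = β := by
    rw [Phi_apply, Fin.sum_univ_four]; simp [hφdef]
  have e1 : Phi φ (Pi.single 1 1) = γ := by
    rw [Phi_apply, Fin.sum_univ_four]; simp [hφdef]
  have e2 : Phi φ (Pi.single 2 1) = βs := by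
    rw [Phi_apply, Fin.sum_univ_four]; simp [hφdef]
  have e3 : Phi φ (Pi.single 3 1) = γs := by
    rw [Phi_apply, Fin.sum_univ_four]; simp [hφdef]
  set m := l (Pi.single 0 1) with hm
  set n := l (Pi.single 1 1) with hn
  set s := l (Pi.single 2 1) with hs
  set t := l (Pi.single 3 1) with ht
  have exneg : ∀ (g : ℂ → ℂ) (z : ℂ), ex (-g) z = (ex g z)⁻¹ := by
    intro g z
    simp [ex, Complex.exp_neg]
  have hone : Small (MM φ) (FF φ) (1 : ℂ → ℂ) := Small.const hM 1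
  refine ⟨?_, ?_, ?_, ?_, ?_, ?_⟩
  · intro hR τ hτ z
    set S := smallRing (MM φ) (FF φ) hM with hS
    let dβ : S := ⟨deriv β, small_deriv hφ hi₀ 0⟩
    let dγ : S := ⟨deriv γ, small_deriv hφ hi₀ 1⟩
    let Xb : AddMonoidAlgebra S (Fin 4 → ℤ) := AddMonoidAlgebra.single (Pi.single 0 1) 1
    let Xc : AddMonoidAlgebra S (Fin 4 → ℤ) := AddMonoidAlgebra.single (Pi.single 1 1) 1
    let Xcb : AddMonoidAlgebra S (Fin 4 → ℤ) :=
      AddMonoidAlgebra.single (Pi.single 1 1 - Pi.single 0 1) 1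
    let Xbs : AddMonoidAlgebra S (Fin 4 → ℤ) := AddMonoidAlgebra.single (-Pi.single 2 1) 1
    let Xcs : AddMonoidAlgebra S (Fin 4 → ℤ) := AddMonoidAlgebra.single (-Pi.single 3 1) 1
    let Db : AddMonoidAlgebra S (Fin 4 → ℤ) := AddMonoidAlgebra.single (Pi.single 0 1) dβ
    let Dc : AddMonoidAlgebra S (Fin 4 → ℤ) := AddMonoidAlgebra.single (Pi.single 1 1) dγ
    let u : AddMonoidAlgebra S (Fin 4 → ℤ) := (Xbs - 1) * (Xc - 1) ^ 2 -
      (Xcs - 1) * ((Xc - Xcb) * (Xc - 1) + Db * (Xc - 1) - Dc * (Xb - 1))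
    have hev : ∀ (σ : ℂˣ) (w : ℂ), ev hM (Phi φ) l σ u w =
        ((σ : ℂ) ^ (-s) * (ex βs w)⁻¹ - 1) * ((σ : ℂ) ^ n * ex γ w - 1) ^ 2 -
        ((σ : ℂ) ^ (-t) * (ex γs w)⁻¹ - 1) *
        (((σ : ℂ) ^ n * ex γ w - (σ : ℂ) ^ (n - m) * (ex γ w * (ex β w)⁻¹)) *
            ((σ : ℂ) ^ n * ex γ w - 1) +
          deriv β w * ((σ : ℂ) ^ m * ex β w) * ((σ : ℂ) ^ n * ex γ w - 1) -
          deriv γ w * ((σ : ℂ) ^ n * ex γ w) * ((σ : ℂ) ^ m * ex β w - 1)) := by
      intro σ w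
      have f1 : ev hM (Phi φ) l σ Xb w = (σ : ℂ) ^ m * ex β w := by
        rw [ev_single, e0, Units.val_zpow_eq_zpow_val]; simp; left; rfl
      have f2 : ev hM (Phi φ) l σ Xc w = (σ : ℂ) ^ n * ex γ w := by
        rw [ev_single, e1, Units.val_zpow_eq_zpow_val]; simp; left; rfl
      have f3 : ev hM (Phi φ) l σ Xcb w =
          (σ : ℂ) ^ (n - m) * (ex γ w * (ex β w)⁻¹) := by
        rw [ev_single, map_sub, map_sub, e0, e1, Units.val_zpow_eq_zpow_val, sub_eq_add_neg γ β,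
          ex_add, Pi.mul_apply, exneg]
        simp; left; rfl
      have f4 : ev hM (Phi φ) l σ Xbs w = (σ : ℂ) ^ (-s) * (ex βs w)⁻¹ := by
        rw [ev_single, map_neg, map_neg, e2, Units.val_zpow_eq_zpow_val, exneg]; simp; left; rfl
      have f5 : ev hM (Phi φ) l σ Xcs w = (σ : ℂ) ^ (-t) * (ex γs w)⁻¹ := by
        rw [ev_single, map_neg, map_neg, e3, Units.val_zpow_eq_zpow_val, exneg]; simp; left; rfl
      have f6 : ev hM (Phi φ) l σ Db w = deriv β w * ((σ : ℂ) ^ m * ex β w) := by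
        rw [ev_single, e0, Units.val_zpow_eq_zpow_val]
      have f7 : ev hM (Phi φ) l σ Dc w = deriv γ w * ((σ : ℂ) ^ n * ex γ w) := by
        rw [ev_single, e1, Units.val_zpow_eq_zpow_val]
      have : ev hM (Phi φ) l σ u = (ev hM (Phi φ) l σ Xbs - 1) * (ev hM (Phi φ) l σ Xc - 1) ^ 2 -
        (ev hM (Phi φ) l σ Xcs - 1) * ((ev hM (Phi φ) l σ Xc - ev hM (Phi φ) l σ Xcb) *
          (ev hM (Phi φ) l σ Xc - 1) + ev hM (Phi φ) l σ Db * (ev hM (Phi φ) l σ Xc - 1) -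
          ev hM (Phi φ) l σ Dc * (ev hM (Phi φ) l σ Xb - 1)) := by
        simp only [u, map_sub, map_mul, map_pow, map_add, map_one]
      rw [this]
      simp only [Pi.sub_apply, Pi.mul_apply, Pi.pow_apply, Pi.add_apply, Pi.one_apply,
        f1, f2, f3, f4, f5, f6, f7]
    have h1 : ev hM (Phi φ) l 1 u = 0 := by
      funext w
      rw [hev]
      have := hR w
      simp only [Units.val_one, one_zpow, one_mul, Pi.zero_apply]
      rw [this, sub_self]
    have h2 := homogenize hF hM (Phi φ) (Phi_diff hφ) (Phi_small hφ hi₀) l hl u h1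
      (Units.mk0 τ hτ)
    have h3 := congrFun h2 z
    rw [hev, Units.val_mk0, Pi.zero_apply, sub_eq_zero] at h3
    exact h3
  · intro κ hκ τ hτ z
    set S := smallRing (MM φ) (FF φ) hM with hS
    let Xc : AddMonoidAlgebra S (Fin 4 → ℤ) := AddMonoidAlgebra.single (Pi.single 1 1) 1
    let Xb : AddMonoidAlgebra S (Fin 4 → ℤ) :=
      AddMonoidAlgebra.single (Pi.single 0 1) ⟨fun _ => κ, Small.const hM κ⟩
    let u : AddMonoidAlgebra S (Fin 4 → ℤ) := Xc - 1 - Xb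
    have hev : ∀ (σ : ℂˣ) (w : ℂ), ev hM (Phi φ) l σ u w =
        ((σ : ℂ) ^ n * ex γ w - 1) - κ * ((σ : ℂ) ^ m * ex β w) := by
      intro σ w
      have f1 : ev hM (Phi φ) l σ Xb w = κ * ((σ : ℂ) ^ m * ex β w) := by
        rw [ev_single, e0, Units.val_zpow_eq_zpow_val]
      have f2 : ev hM (Phi φ) l σ Xc w = (σ : ℂ) ^ n * ex γ w := by
        rw [ev_single, e1, Units.val_zpow_eq_zpow_val]; simp; left; rfl
      have : ev hM (Phi φ) l σ u = ev hM (Phi φ) l σ Xc - 1 - ev hM (Phi φ) l σ Xb := by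
        simp only [u, map_sub, map_one]
      rw [this]
      simp only [Pi.sub_apply, Pi.one_apply, f1, f2]
    have h1 : ev hM (Phi φ) l 1 u = 0 := by
      funext w
      rw [hev]
      have := hκ w
      simp only [Units.val_one, one_zpow, one_mul, Pi.zero_apply]
      rw [this, sub_self]
    have h2 := homogenize hF hM (Phi φ) (Phi_diff hφ) (Phi_small hφ hi₀) l hl u h1
      (Units.mk0 τ hτ)
    have h3 := congrFun h2 z
    rw [hev, Units.val_mk0, Pi.zero_apply, sub_eq_zero] at h3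
    exact h3
  · intro h
    apply hl
    rw [e1, const_of_deriv hγ h]
    exact Small.const hM _
  · intro k hk
    have h1 : l (Pi.single 0 1 - k • Pi.single 1 1) = 0 := by
      apply hl
      rw [map_sub, map_zsmul, e0, e1]
      have : ex (β - k • γ) = 1 := by
        funext z
        have h2 := hk z
        have h3 : ex (k • γ) z = ex γ z ^ k := by
          simp only [ex, Pi.smul_apply, zsmul_eq_mul]
          exact Complex.exp_int_mul _ _
        rw [sub_eq_add_neg, ex_add, Pi.mul_apply, exneg, h3, h2, Pi.one_apply]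
        exact mul_inv_cancel₀ (zpow_ne_zero _ (ex_ne _ _))
      rw [this]
      exact hone
    rw [map_sub, map_zsmul, smul_eq_mul, sub_eq_zero] at h1
    exact h1
  · intro k hk
    have h1 : l (Pi.single 2 1 - k • Pi.single 3 1) = 0 := by
      apply hl
      rw [map_sub, map_zsmul, e2, e3]
      have : ex (βs - k • γs) = 1 := by
        funext z
        have h2 := hk z
        have h3 : ex (k • γs) z = ex γs z ^ k := by
          simp only [ex, Pi.smul_apply, zsmul_eq_mul]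
          exact Complex.exp_int_mul _ _
        rw [sub_eq_add_neg, ex_add, Pi.mul_apply, exneg, h3, h2, Pi.one_apply]
        exact mul_inv_cancel₀ (zpow_ne_zero _ (ex_ne _ _))
      rw [this]
      exact hone
    rw [map_sub, map_zsmul, smul_eq_mul, sub_eq_zero] at h1
    exact h1
  · rintro ⟨h0, h1, h2, h3⟩
    apply hl0
    apply DFunLike.ext
    intro v
    have hv : v = v 0 • Pi.single 0 1 + v 1 • Pi.single 1 1 + v 2 • Pi.single 2 1 +
        v 3 • (Pi.single 3 1 : Fin 4 → ℤ) := by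
      funext i
      fin_cases i <;> simp
    rw [hv]
    simp only [map_add, map_zsmul, ← hm, ← hn, ← hs, ← ht, h0, h1, h2, h3, smul_zero, add_zero,
      AddMonoidHom.zero_apply]

/-- The twist with nonnegative degree of `e^γ`. -/
theorem exists_tw {β γ βs γs : ℂ → ℂ} (hβ : Differentiable ℂ β) (hγ : Differentiable ℂ γ)
    (hβs : Differentiable ℂ βs) (hγs : Differentiable ℂ γs)
    (hnc : deriv β ≠ 0 ∨ deriv γ ≠ 0) :
    ∃ m n s t : ℤ, Tw β γ βs γs m n s t ∧ 0 ≤ n := by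
  have hφ : ∀ i, Differentiable ℂ ((![β, γ, βs, γs] : Fin 4 → ℂ → ℂ) i) := by
    intro i
    fin_cases i
    · exact hβ
    · exact hγ
    · exact hβs
    · exact hγs
  obtain ⟨i₀, hi₀⟩ : ∃ i₀ : Fin 4, deriv ((![β, γ, βs, γs] : Fin 4 → ℂ → ℂ) i₀) ≠ 0 := by
    rcases hnc with h | h
    · exact ⟨0, h⟩
    · exact ⟨1, h⟩
  obtain ⟨l, hl0, hl⟩ := exists_l hφ hi₀
  rcases le_total 0 (l (Pi.single 1 1)) with h | h
  · exact ⟨_, _, _, _, tw_of_l hβ hγ hβs hγs hi₀ l hl0 hl, h⟩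
  · refine ⟨_, _, _, _, tw_of_l hβ hγ hβs hγs hi₀ (-l) (neg_ne_zero.mpr hl0) (fun n hn => ?_), ?_⟩
    · rw [AddMonoidHom.neg_apply, hl n hn, neg_zero]
    · rw [AddMonoidHom.neg_apply]; omega

end

end Pool.Agent.H26b
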